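import Mathlib

/-!
# Algebraic lemmas: kernels in finite algebras, and bounded generation
-/

set_option autoImplicit false

namespace Pool.Agent.R566.DG

open scoped TensorProduct

/-- In an artinian ring every ideal is nilpotent after cutting with an idempotent. -/
theorem exists_cut {T : Type} [CommRing T] [IsArtinianRing T] (J : Ideal T) :
    ∃ (e : ℕ) (ε : T), 1 ≤ e ∧ 1 - ε ∈ J ∧ (Ideal.span {ε} * J) ^ e = ⊥ := by
  obtain ⟨n, hn⟩ := IsArtinian.monotone_stabilizes
    (⟨fun m => OrderDual.toDual (J ^ m), fun a b hab => Ideal.pow_le_pow_right hab⟩ :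
      ℕ →o (Submodule T T)ᵒᵈ)
  have hn' : ∀ m, n ≤ m → J ^ n = J ^ m := fun m hm => hn m hm
  have h1 : IsIdempotentElem (J ^ (n + 1)) := by
    change J ^ (n + 1) * J ^ (n + 1) = J ^ (n + 1)
    rw [← pow_add, ← hn' (n + 1 + (n + 1)) (by omega), ← hn' (n + 1) (by omega)]
  obtain ⟨ε, h2, h3⟩ := (Ideal.isIdempotentElem_iff_of_fg _
    (IsNoetherian.noetherian (J ^ (n + 1)))).mp h1
  refine ⟨n + 1, 1 - ε, by omega, ?_, ?_⟩
  · rw [sub_sub_cancel]
    have h4 : ε ∈ J ^ (n + 1) := by
      rw [h3]
      exact Ideal.mem_span_singleton_self ε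
    exact Ideal.pow_le_self (Nat.succ_ne_zero n) h4
  · rw [mul_pow, h3, Ideal.span_singleton_pow, Ideal.span_singleton_mul_span_singleton,
      Ideal.span_singleton_eq_bot, pow_succ, mul_assoc]
    have h5 : (1 - ε) * ε = 0 := by
      rw [sub_mul, one_mul, h2.eq, sub_self]
    rw [h5, mul_zero]

/-- Elements of a ring generated by integral elements are polynomials of bounded degree in
them. -/
theorem bounded_gen {R T ι : Type} [CommRing R] [CommRing T] [Algebra R T] [Fintype ι]
    (x : ι → T) (g : ℕ) (hx : ∀ i, ∃ G : Polynomial R, G.Monic ∧ G.natDegree ≤ g ∧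
      Polynomial.aeval (x i) G = 0) (F : MvPolynomial ι R) :
    ∃ F' : MvPolynomial ι R, F'.totalDegree ≤ Fintype.card ι * g ∧
      MvPolynomial.aeval x F' = MvPolynomial.aeval x F := by
  classical
  set q := Fintype.card ι * g with hq
  -- the module of the values of polynomials of bounded degree
  let W : Submodule R T := (MvPolynomial.restrictTotalDegree ι R q).map
    (MvPolynomial.aeval (R := R) x).toLinearMap
  have key : ∀ n : ℕ, ∀ u : ι →₀ ℕ, u.sum (fun _ e => e) = n →
      MvPolynomial.aeval x (MvPolynomial.monomial u (1 : R)) ∈ W := by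
    intro n
    induction n using Nat.strong_induction_on with
    | _ n ih =>
      intro u hu
      by_cases hnq : n ≤ q
      · refine ⟨MvPolynomial.monomial u 1, ?_, rfl⟩
        rw [SetLike.mem_coe, MvPolynomial.mem_restrictTotalDegree]
        exact (MvPolynomial.totalDegree_monomial_le u (1 : R)).trans (hu.le.trans hnq)
      · obtain ⟨i, hi⟩ : ∃ i, g ≤ u i := by
          by_contra hcon
          push Not at hcon
          have h1 : u.sum (fun _ e => e) ≤ ∑ _i : ι, g := by
            rw [Finsupp.sum_fintype _ _ (fun _ => rfl)]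
            exact Finset.sum_le_sum fun i _ => (hcon i).le
          rw [Finset.sum_const, smul_eq_mul, Finset.card_univ] at h1
          omega
        obtain ⟨G, hG1, hG2, hG3⟩ := hx i
        have h2 : (x i) ^ G.natDegree = -∑ j ∈ Finset.range G.natDegree,
            algebraMap R T (G.coeff j) * x i ^ j := by
          have h3 := hG3
          rw [hG1.as_sum, map_add, map_pow, Polynomial.aeval_X, map_sum] at h3
          rw [eq_neg_iff_add_eq_zero, ← h3]
          congr 1
          refine Finset.sum_congr rfl fun j _ => ?_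
          rw [map_mul, Polynomial.aeval_C, map_pow, Polynomial.aeval_X]
        set v : ι →₀ ℕ := u - Finsupp.single i G.natDegree with hv
        have hle : Finsupp.single i G.natDegree ≤ u := by
          rw [Finsupp.single_le_iff]
          exact hG2.trans hi
        have h4 : u = v + Finsupp.single i G.natDegree := (tsub_add_cancel_of_le hle).symm
        have h5 : ∀ (w : ι →₀ ℕ) (j : ℕ), MvPolynomial.aeval x
            (MvPolynomial.monomial (w + Finsupp.single i j) (1 : R)) =
            MvPolynomial.aeval x (MvPolynomial.monomial w (1 : R)) * x i ^ j := by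
          intro w j
          have h6 : (MvPolynomial.monomial (w + Finsupp.single i j) (1 : R)) =
              MvPolynomial.monomial w 1 * MvPolynomial.X i ^ j := by
            rw [MvPolynomial.X_pow_eq_monomial, MvPolynomial.monomial_mul, one_mul]
          rw [h6, map_mul, map_pow, MvPolynomial.aeval_X]
        rw [h4, h5, h2, mul_neg, Finset.mul_sum]
        refine W.neg_mem (W.sum_mem fun j hj => ?_)
        have h7 : MvPolynomial.aeval x (MvPolynomial.monomial v (1 : R)) *
            (algebraMap R T (G.coeff j) * x i ^ j) = G.coeff j • MvPolynomial.aeval x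
            (MvPolynomial.monomial (v + Finsupp.single i j) (1 : R)) := by
          rw [h5, Algebra.smul_def]
          ring
        rw [h7]
        refine W.smul_mem _ (ih _ ?_ _ rfl)
        rw [← hu, h4, Finsupp.sum_fintype _ _ (fun _ => rfl), Finsupp.sum_fintype _ _ (fun _ => rfl)]
        simp only [Finsupp.add_apply, Finset.sum_add_distrib]
        have h8 : ∀ m : ℕ, ∑ l, (Finsupp.single i m : ι →₀ ℕ) l = m := by
          intro m
          rw [Finset.sum_eq_single i]
          · exact Finsupp.single_eq_same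
          · intro l _ hl
            exact Finsupp.single_eq_of_ne hl
          · intro h
            exact absurd (Finset.mem_univ i) h
        rw [h8, h8]
        exact Nat.add_lt_add_left (Finset.mem_range.mp hj) _
  have hF : MvPolynomial.aeval x F ∈ W := by
    rw [F.as_sum, map_sum]
    refine W.sum_mem fun u _ => ?_
    have h1 : MvPolynomial.monomial u (MvPolynomial.coeff u F) =
        MvPolynomial.coeff u F • (MvPolynomial.monomial u 1 : MvPolynomial ι R) := by
      rw [MvPolynomial.smul_monomial, smul_eq_mul, mul_one]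
    rw [h1, map_smul]
    exact W.smul_mem _ (key _ u rfl)
  obtain ⟨F', h1, h2⟩ := hF
  rw [SetLike.mem_coe, MvPolynomial.mem_restrictTotalDegree] at h1
  exact ⟨F', h1, h2⟩

section approx

variable {R B K C Q S : Type} [CommRing R] [CommRing B] [Algebra R B] [CommRing K] [Algebra R K]
  [CommRing C] [Algebra R C] [CommRing Q] [CommRing S] [Algebra R S]

/-- `x` (in the localization `K` of `B`) is an approximation of `y` (in the lattice `S`). -/
def Ap (t : R) (c : ℕ) (i : B →ₐ[R] K) (P : B →+* Q) (m : C →+* Q) (θ : S →ₗ[R] C) (j : ℕ) (x : K)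
    (y : S) : Prop :=
  ∃ b : B, t ^ (c * (j + 1)) • x = i b ∧ P b = m (t ^ (c * j) • θ y)

variable {t : R} {c : ℕ} {i : B →ₐ[R] K} {P : B →+* Q} {m : C →+* Q} {θ : S →ₗ[R] C} {j : ℕ}
  (hP : ∀ r : R, P (algebraMap R B r) = m (algebraMap R C r))
  (hθ : ∀ x y, θ x * θ y = t ^ c • θ (x * y)) (hθ1 : θ 1 = t ^ c • 1)

include hP in
lemma P_smul (r : R) (b : B) : P (r • b) = m (algebraMap R C r) * P b := by
  rw [Algebra.smul_def, map_mul, hP]

lemma Ap.add {x x' : K} {y y' : S} (h : Ap t c i P m θ j x y) (h' : Ap t c i P m θ j x' y') :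
    Ap t c i P m θ j (x + x') (y + y') := by
  obtain ⟨b, h1, h2⟩ := h
  obtain ⟨b', h1', h2'⟩ := h'
  exact ⟨b + b', by rw [smul_add, h1, h1', map_add], by rw [map_add, h2, h2', map_add, smul_add,
    map_add]⟩

include hP in
lemma Ap.smul {x : K} {y : S} (h : Ap t c i P m θ j x y) (r : R) :
    Ap t c i P m θ j (r • x) (r • y) := by
  obtain ⟨b, h1, h2⟩ := h
  refine ⟨r • b, by rw [smul_comm, h1, map_smul], ?_⟩
  rw [P_smul hP, h2, ← map_mul, ← Algebra.smul_def, smul_comm, θ.map_smul]

include hP in
lemma Ap.sum {ι : Type} (s : Finset ι) {x : ι → K} {y : ι → S}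
    (h : ∀ l ∈ s, Ap t c i P m θ j (x l) (y l)) :
    Ap t c i P m θ j (∑ l ∈ s, x l) (∑ l ∈ s, y l) := by
  classical
  induction s using Finset.induction_on with
  | empty => exact ⟨0, by simp, by simp⟩
  | insert l s hl ih =>
    rw [Finset.sum_insert hl, Finset.sum_insert hl]
    exact (h l (Finset.mem_insert_self _ _)).add
      (ih fun l' hl' => h l' (Finset.mem_insert_of_mem hl'))

include hP hθ1 in
lemma Ap.one : Ap t c i P m θ 0 (1 : K) (1 : S) := by
  refine ⟨t ^ c • 1, ?_, ?_⟩
  · rw [map_smul, map_one, zero_add, mul_one]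
  · rw [P_smul hP, map_one, mul_one, mul_zero, pow_zero, one_smul, hθ1, Algebra.smul_def, mul_one]

include hP in
lemma Ap.succ {x : K} {y : S} (h : Ap t c i P m θ j x y) : Ap t c i P m θ (j + 1) x y := by
  obtain ⟨b, h1, h2⟩ := h
  refine ⟨t ^ c • b, ?_, ?_⟩
  · rw [map_smul, ← h1, smul_smul, ← pow_add]
    congr 2
    ring
  · rw [P_smul hP, h2, ← map_mul, ← Algebra.smul_def, smul_smul, ← pow_add]
    congr 3
    ring

include hP in
lemma Ap.mono {x : K} {y : S} (h : Ap t c i P m θ j x y) {j' : ℕ} (hj : j ≤ j') :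
    Ap t c i P m θ j' x y := by
  induction j', hj using Nat.le_induction with
  | base => exact h
  | succ n _ ih => exact ih.succ hP

include hP hθ in
lemma Ap.mul {x x' : K} {y y' : S} (h : Ap t c i P m θ j x y) {β : B}
    (h1 : t ^ c • x' = i β) (h2 : P β = m (θ y')) : Ap t c i P m θ (j + 1) (x * x') (y * y') := by
  obtain ⟨b, h3, h4⟩ := h
  refine ⟨b * β, ?_, ?_⟩
  · rw [map_mul, ← h3, ← h1, smul_mul_smul_comm, ← pow_add]
    congr 2
  · rw [map_mul, h4, h2, ← map_mul, smul_mul_assoc, hθ, smul_smul, ← pow_add]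
    congr 3

section gen

variable {ι : Type} {x : ι → K} {y : ι → S} {β : ι → B} (hx : ∀ l, t ^ c • x l = i (β l))
  (hβ : ∀ l, P (β l) = m (θ (y l)))

include hP hθ hθ1 hx hβ in
lemma Ap.pow (l : ι) (n : ℕ) : Ap t c i P m θ n (x l ^ n) (y l ^ n) := by
  induction n with
  | zero =>
    rw [pow_zero, pow_zero]
    exact Ap.one hP hθ1
  | succ n ih =>
    rw [pow_succ, pow_succ]
    exact ih.mul hP hθ (hx l) (hβ l)

include hP hθ hθ1 hx hβ in
lemma Ap.poly (l : ι) (G : Polynomial R) {n : ℕ} (hG : G.natDegree ≤ n) :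
    Ap t c i P m θ n (Polynomial.aeval (x l) G) (Polynomial.aeval (y l) G) := by
  rw [Polynomial.aeval_eq_sum_range' (Nat.lt_succ_of_le hG),
    Polynomial.aeval_eq_sum_range' (Nat.lt_succ_of_le hG)]
  refine Ap.sum hP _ fun s hs => ?_
  refine (((Ap.pow hP hθ hθ1 hx hβ l s)).mono hP ?_).smul hP _
  exact Nat.lt_succ_iff.mp (Finset.mem_range.mp hs)

include hP hθ hθ1 hx hβ in
lemma Ap.monomial [Fintype ι] (n : ℕ) : ∀ u : ι →₀ ℕ, ∑ l, u l = n →
    Ap t c i P m θ n (MvPolynomial.aeval x (MvPolynomial.monomial u (1 : R)))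
      (MvPolynomial.aeval y (MvPolynomial.monomial u (1 : R))) := by
  classical
  induction n with
  | zero =>
    intro u hu
    have h0 : u = 0 := by
      ext l
      exact (Finset.sum_eq_zero_iff.mp hu) l (Finset.mem_univ l)
    subst h0
    have h1 : (MvPolynomial.monomial (0 : ι →₀ ℕ) (1 : R)) = 1 := rfl
    rw [h1, map_one, map_one]
    exact Ap.one hP hθ1
  | succ n ih =>
    intro u hu
    obtain ⟨l, hl⟩ : ∃ l, u l ≠ 0 := by
      by_contra hcon
      push Not at hcon
      have : ∑ l, u l = 0 := Finset.sum_eq_zero fun l _ => hcon l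
      omega
    set v : ι →₀ ℕ := u - Finsupp.single l 1 with hv
    have hle : Finsupp.single l 1 ≤ u := by
      rw [Finsupp.single_le_iff]
      omega
    have h4 : u = v + Finsupp.single l 1 := (tsub_add_cancel_of_le hle).symm
    have h5 : (MvPolynomial.monomial u (1 : R)) =
        MvPolynomial.monomial v 1 * MvPolynomial.X l := by
      rw [h4, ← pow_one (MvPolynomial.X l), MvPolynomial.X_pow_eq_monomial,
        MvPolynomial.monomial_mul, one_mul]
    have h6 : ∑ l, v l = n := by
      have h7 : ∑ l', u l' = ∑ l', v l' + ∑ l', (Finsupp.single l 1 : ι →₀ ℕ) l' := by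
        rw [← Finset.sum_add_distrib]
        refine Finset.sum_congr rfl fun l' _ => ?_
        rw [h4]
        rfl
      have h8 : ∑ l', (Finsupp.single l 1 : ι →₀ ℕ) l' = 1 := by
        rw [Finset.sum_eq_single l]
        · exact Finsupp.single_eq_same
        · intro l' _ hl'
          exact Finsupp.single_eq_of_ne hl'
        · intro h
          exact absurd (Finset.mem_univ l) h
      omega
    rw [h5, map_mul, map_mul, MvPolynomial.aeval_X, MvPolynomial.aeval_X]
    exact (ih v h6).mul hP hθ (hx l) (hβ l)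

include hP hθ hθ1 hx hβ in
lemma Ap.mvpoly [Fintype ι] (F : MvPolynomial ι R) {n : ℕ} (hF : F.totalDegree ≤ n) :
    Ap t c i P m θ n (MvPolynomial.aeval x F) (MvPolynomial.aeval y F) := by
  have h1 : F = ∑ u ∈ F.support, MvPolynomial.coeff u F • (MvPolynomial.monomial u (1 : R)) := by
    conv_lhs => rw [F.as_sum]
    refine Finset.sum_congr rfl fun u _ => ?_
    rw [MvPolynomial.smul_monomial, smul_eq_mul, mul_one]
  rw [h1, map_sum, map_sum]
  refine Ap.sum hP _ fun u hu => ?_
  rw [map_smul, map_smul]
  refine Ap.smul hP (Ap.mono hP (Ap.monomial hP hθ hθ1 hx hβ _ u rfl) ?_) _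
  refine le_trans ?_ hF
  have := MvPolynomial.le_totalDegree hu
  rwa [Finsupp.sum_fintype _ _ (fun _ => rfl)] at this

end gen

end approx

/-- Cayley-Hamilton -/
theorem exists_monic_eq_zero {R B : Type} [CommRing R] [Nontrivial R] [CommRing B] [Algebra R B]
    [Module.Finite R B] [Module.Free R B] (b : B) :
    ∃ H : Polynomial R, H.Monic ∧ H.natDegree = Module.finrank R B ∧ Polynomial.aeval b H = 0 := by
  refine ⟨(Algebra.lmul R B b).charpoly, LinearMap.charpoly_monic _,
    LinearMap.charpoly_natDegree _, ?_⟩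
  have h1 := LinearMap.aeval_self_charpoly (Algebra.lmul R B b)
  rw [← AlgHom.coe_toRingHom] at h1
  apply Algebra.lmul_injective (R := R)
  rw [map_zero, ← h1]
  exact (Polynomial.aeval_algHom_apply (Algebra.lmul R B) b _).symm

theorem sup_pow_le {B : Type} [CommRing B] (s t : Ideal B) (e : ℕ) :
    (s ⊔ t) ^ e ≤ s ^ e ⊔ t := by
  induction e with
  | zero => simp
  | succ e ih =>
    rw [pow_succ, pow_succ]
    refine (Ideal.mul_mono_left ih).trans ?_
    rw [Ideal.mul_sup, Ideal.sup_mul, Ideal.sup_mul]
    refine sup_le (sup_le le_sup_left ?_) (sup_le ?_ ?_)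
    · exact le_sup_of_le_right Ideal.mul_le_left
    · exact le_sup_of_le_right Ideal.mul_le_right
    · exact le_sup_of_le_right Ideal.mul_le_left

/-- ring homs out of a tensor product -/
theorem exists_tensorMap {k R A Q : Type} [CommRing k] [CommRing R] [Algebra k R] [CommRing A]
    [Algebra k A] [CommRing Q] (f : R →+* Q) (g : A →+* Q)
    (h : ∀ c : k, f (algebraMap k R c) = g (algebraMap k A c)) :
    ∃ σ : TensorProduct k R A →+* Q, (∀ r, σ (algebraMap R (TensorProduct k R A) r) = f r) ∧
      ∀ a, σ (Algebra.TensorProduct.includeRight a) = g a := by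
  let _ : Algebra k Q := (f.comp (algebraMap k R)).toAlgebra
  let f' : R →ₐ[k] Q := { f with commutes' := fun c => rfl }
  let g' : A →ₐ[k] Q := { g with commutes' := fun c => (h c).symm }
  refine ⟨(Algebra.TensorProduct.productMap f' g').toRingHom, fun r => ?_, fun a => ?_⟩
  · change Algebra.TensorProduct.productMap f' g' (r ⊗ₜ 1) = f r
    rw [Algebra.TensorProduct.productMap_apply_tmul, map_one, mul_one]
    rfl
  · change Algebra.TensorProduct.productMap f' g' (1 ⊗ₜ a) = g a
    rw [Algebra.TensorProduct.productMap_apply_tmul, map_one, one_mul]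
    rfl

end Pool.Agent.R566.DG
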