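import Pool.Agent.R566.DG.Main

/-!
# The degenerate family
-/

set_option autoImplicit false

namespace Pool.Agent.R566.DG

open scoped TensorProduct PowerSeries
open Pool.Agent.H826R3.SM Pool.Agent.R566.CV

theorem core2 {R ℬ K 𝒜 C A₀ : Type} [CommRing R] [Nontrivial R] [CommRing ℬ] [Algebra R ℬ]
    [CommRing K] [Algebra R K] [CommRing 𝒜] [Algebra R 𝒜] [CommRing C] [Algebra R C] [CommRing A₀]
    [Module.Finite R ℬ] [Module.Free R ℬ] (t : R)
    (ι : ℬ →ₐ[R] K) (hι : Function.Injective ι) (hK : ∀ (n : ℕ) (x : K), t ^ n • x = 0 → x = 0)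
    (hKd : ∀ (n : ℕ) (x : K), ∃ y, t ^ n • y = x)
    (hS : ∀ (n : ℕ) (x : 𝒜), t ^ n • x = 0 → x = 0)
    (c m e : ℕ) (he : 1 ≤ e) (θ : 𝒜 →ₗ[R] C) (η : C →ₗ[R] 𝒜)
    (hθ : ∀ x y, θ x * θ y = t ^ c • θ (x * y)) (hθ1 : θ 1 = t ^ c • 1)
    (hη : ∀ x, η (θ x) = t ^ m • x) (π : 𝒜 →+* A₀) (hπ : Function.Surjective π)
    (hπt : π (algebraMap R 𝒜 t) = 0) {n : ℕ} (a : Fin n → 𝒜)
    (ha : Algebra.adjoin R (Set.range a) = ⊤) (P : Fin n → Polynomial R) (hP1 : ∀ i, (P i).Monic)
    (hP2 : ∀ i, Polynomial.aeval (a i) (P i) = 0) (ph : ℕ) (hph : ∀ i, (P i).natDegree ≤ ph)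
    (g : ℕ) (hg : ph + Module.finrank R ℬ * (e * (ph + 1)) ≤ g) (M : ℕ)
    (hM : c * (n * g) + m + 1 + c * (ph + 2) * e ≤ M)
    (Ψ : ℬ →+* C ⧸ Ideal.span {algebraMap R C (t ^ M)}) (E : ℬ) (hΨs : Function.Surjective Ψ)
    (hΨE : Ψ E = 1) (hΨC : ∀ r, Ψ (algebraMap R ℬ r) = Ideal.Quotient.mk _ (algebraMap R C r))
    (hN : ∀ y, Ψ y = 0 → ∃ z, (E * y) ^ e = t ^ M • z) :
    ∃ (𝒞 : Subalgebra R K) (h : 𝒞 →+* A₀) (s : ℕ), Function.Surjective h ∧
      (∀ r, h (algebraMap R 𝒞 r) = π (algebraMap R 𝒜 r)) ∧ ∀ x ∈ 𝒞, ∃ b, ι b = t ^ s • x := by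
  classical
  set mk := Ideal.Quotient.mk (Ideal.span {algebraMap R C (t ^ M)}) with hmk
  choose β0 hβ0 using fun i => hΨs (mk (θ (a i)))
  let β : Fin n → ℬ := fun i => E * β0 i
  have hβ : ∀ i, Ψ (β i) = mk (θ (a i)) := fun i => by
    change Ψ (E * β0 i) = _
    rw [map_mul, hΨE, one_mul, hβ0]
  choose x hx using fun i => hKd c (ι (β i))
  have hG : ∀ i, ∃ G : Polynomial R, G.Monic ∧ G.natDegree ≤ g ∧
      Polynomial.aeval ((x i, a i) : K × 𝒜) G = 0 := by
    intro i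
    obtain ⟨b, hb1, hb2⟩ := Ap.poly hΨC hθ hθ1 hx hβ i (P i) (hph i)
    rw [hP2 i, map_zero, smul_zero, map_zero] at hb2
    have hb3 : Ψ (β0 i * b) = 0 := by rw [map_mul, hb2, mul_zero]
    obtain ⟨z, hz⟩ := hN _ hb3
    have h1 : t ^ (c * (ph + 2)) • (x i * Polynomial.aeval (x i) (P i)) =
        ι (E * (β0 i * b)) := by
      have h0 : t ^ (c * (ph + 2)) = t ^ c * t ^ (c * (ph + 1)) := by
        rw [← pow_add]
        congr 1
        ring
      rw [h0, ← smul_mul_smul_comm, hx, hb1, ← map_mul]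
      congr 1
      change E * β0 i * b = _
      ring
    have h2 : t ^ (c * (ph + 2) * e) • (x i * Polynomial.aeval (x i) (P i)) ^ e = t ^ M • ι z := by
      rw [pow_mul, ← smul_pow, h1, ← map_pow, hz, map_smul]
    have h3 : (x i * Polynomial.aeval (x i) (P i)) ^ e = ι (t ^ (M - c * (ph + 2) * e) • z) := by
      have h4 : t ^ (c * (ph + 2) * e) • ((x i * Polynomial.aeval (x i) (P i)) ^ e -
          ι (t ^ (M - c * (ph + 2) * e) • z)) = 0 := by
        rw [smul_sub, h2, map_smul, smul_smul, ← pow_add, Nat.add_sub_cancel' (by omega), sub_self]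
      exact sub_eq_zero.mp (hK _ _ h4)
    obtain ⟨H, hH1, hH2, hH3⟩ := exists_monic_eq_zero (R := R) (t ^ (M - c * (ph + 2) * e) • z)
    have hmon : ((Polynomial.X * P i) ^ e).Monic := (Polynomial.monic_X.mul (hP1 i)).pow e
    have hdeg : ((Polynomial.X * P i) ^ e).natDegree = e * ((P i).natDegree + 1) := by
      rw [(Polynomial.monic_X.mul (hP1 i)).natDegree_pow, Polynomial.monic_X.natDegree_mul (hP1 i),
        Polynomial.natDegree_X, add_comm 1]
    have hdeg0 : ((Polynomial.X * P i) ^ e).natDegree ≠ 0 := by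
      rw [hdeg]
      positivity
    refine ⟨P i * H.comp ((Polynomial.X * P i) ^ e), (hP1 i).mul (hH1.comp hmon hdeg0), ?_, ?_⟩
    · refine Polynomial.natDegree_mul_le.trans ?_
      refine le_trans (add_le_add (hph i) (Polynomial.natDegree_comp_le.trans ?_)) hg
      rw [hH2, hdeg]
      exact Nat.mul_le_mul_left _ (Nat.mul_le_mul_left _ (Nat.succ_le_succ (hph i)))
    · apply Prod.ext
      · change (AlgHom.fst R K 𝒜) (Polynomial.aeval _ _) = 0
        rw [← Polynomial.aeval_algHom_apply]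
        change Polynomial.aeval (x i) _ = 0
        rw [map_mul, Polynomial.aeval_comp, map_pow, map_mul, Polynomial.aeval_X, h3,
          Polynomial.aeval_algHom_apply, hH3, map_zero, mul_zero]
      · change (AlgHom.snd R K 𝒜) (Polynomial.aeval _ _) = 0
        rw [← Polynomial.aeval_algHom_apply]
        change Polynomial.aeval (a i) _ = 0
        rw [map_mul, hP2, zero_mul]
  have hbd : ∀ F : MvPolynomial (Fin n) R, ∃ F' : MvPolynomial (Fin n) R,
      F'.totalDegree ≤ n * g ∧ MvPolynomial.aeval x F' = MvPolynomial.aeval x F ∧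
      MvPolynomial.aeval a F' = MvPolynomial.aeval a F := by
    intro F
    obtain ⟨F', h1, h2⟩ := bounded_gen (fun i => ((x i, a i) : K × 𝒜)) g hG F
    rw [Fintype.card_fin] at h1
    have h3 : (AlgHom.fst R K 𝒜).comp (MvPolynomial.aeval fun i => ((x i, a i) : K × 𝒜)) =
        MvPolynomial.aeval x := by
      apply MvPolynomial.algHom_ext
      intro i
      rw [AlgHom.comp_apply, MvPolynomial.aeval_X, MvPolynomial.aeval_X]
      rfl
    have h4 : (AlgHom.snd R K 𝒜).comp (MvPolynomial.aeval fun i => ((x i, a i) : K × 𝒜)) =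
        MvPolynomial.aeval a := by
      apply MvPolynomial.algHom_ext
      intro i
      rw [AlgHom.comp_apply, MvPolynomial.aeval_X, MvPolynomial.aeval_X]
      rfl
    refine ⟨F', h1, ?_, ?_⟩
    · rw [← h3, AlgHom.comp_apply, AlgHom.comp_apply, h2]
    · rw [← h4, AlgHom.comp_apply, AlgHom.comp_apply, h2]
  have hker : ∀ F : MvPolynomial (Fin n) R, MvPolynomial.aeval x F = 0 →
      π (MvPolynomial.aeval a F) = 0 := by
    intro F hF
    obtain ⟨F', h1, h2, h3⟩ := hbd F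
    obtain ⟨b, hb1, hb2⟩ := Ap.mvpoly hΨC hθ hθ1 hx hβ F' h1
    rw [h2, hF, smul_zero] at hb1
    have hb : b = 0 := hι (by rw [← hb1, map_zero])
    rw [hb, map_zero, h3] at hb2
    obtain ⟨α, hα⟩ := Ideal.mem_span_singleton.mp (Ideal.Quotient.eq_zero_iff_mem.mp hb2.symm)
    rw [← Algebra.smul_def] at hα
    have h4 := congrArg η hα
    rw [map_smul, map_smul, hη, smul_smul, ← pow_add] at h4
    have h5 : MvPolynomial.aeval a F = t ^ (M - (c * (n * g) + m)) • η α := by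
      have h6 : t ^ (c * (n * g) + m) • (MvPolynomial.aeval a F -
          t ^ (M - (c * (n * g) + m)) • η α) = 0 := by
        rw [smul_sub, h4, smul_smul, ← pow_add, Nat.add_sub_cancel' (by omega), sub_self]
      exact sub_eq_zero.mp (hS _ _ h6)
    rw [h5, Algebra.smul_def, map_mul, map_pow, map_pow, hπt, zero_pow (by omega), zero_mul]
  let f : MvPolynomial (Fin n) R →ₐ[R] K := MvPolynomial.aeval x
  have hs : Function.Surjective f.rangeRestrict := AlgHom.rangeRestrict_surjective f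
  let G : MvPolynomial (Fin n) R →+* A₀ := π.comp (MvPolynomial.aeval a : _ →ₐ[R] 𝒜).toRingHom
  have hle : RingHom.ker (f.rangeRestrict : MvPolynomial (Fin n) R →+* f.range) ≤
      RingHom.ker G := by
    intro F hF
    have h1 : f.rangeRestrict F = 0 := hF
    exact hker F (congrArg Subtype.val h1)
  let h := RingHom.liftOfRightInverse (f.rangeRestrict : MvPolynomial (Fin n) R →+* f.range)
    (Function.surjInv hs) (Function.rightInverse_surjInv hs) ⟨G, hle⟩
  have hh : ∀ F, h (f.rangeRestrict F) = π (MvPolynomial.aeval a F) := fun F =>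
    RingHom.liftOfRightInverse_comp_apply _ _ (Function.rightInverse_surjInv hs) ⟨G, hle⟩ F
  refine ⟨f.range, h, c * (n * g + 1), ?_, ?_, ?_⟩
  · intro y
    obtain ⟨y, rfl⟩ := hπ y
    have h1 : y ∈ (MvPolynomial.aeval (R := R) a).range := by
      rw [← Algebra.adjoin_range_eq_range_aeval, ha]
      trivial
    obtain ⟨F, rfl⟩ := h1
    exact ⟨f.rangeRestrict F, hh F⟩
  · intro r
    have h1 : algebraMap R f.range r = f.rangeRestrict (MvPolynomial.C r) := by
      apply Subtype.ext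
      change algebraMap R K r = MvPolynomial.aeval x (MvPolynomial.C r)
      rw [MvPolynomial.aeval_C]
    rw [h1, hh, MvPolynomial.aeval_C]
  · rintro _ ⟨F, rfl⟩
    obtain ⟨F', h1, h2, -⟩ := hbd F
    obtain ⟨b, hb1, -⟩ := Ap.mvpoly hΨC hθ hθ1 hx hβ F' h1
    refine ⟨b, ?_⟩
    rw [← hb1, h2]
    rfl

end Pool.Agent.R566.DG
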