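import Pool.Agent.R566.DG.Core

/-!
# Families pass to degenerations
-/

set_option autoImplicit false

namespace Pool.Agent.R566.DG

open scoped TensorProduct PowerSeries
open Pool.Agent.H826R3.SM Pool.Agent.R566.CV

variable {k : Type} [Field k]

/-- a subalgebra of the generic fibre of a family which is bounded is the total space of a family -/
theorem lattice_data {ℬ : Type} [CommRing ℬ] [Algebra k⟦X⟧ ℬ] [Module.Finite k⟦X⟧ ℬ]
    [Module.Free k⟦X⟧ ℬ] (hred : IsReduced (LL k ⊗[k⟦X⟧] ℬ))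
    (𝒞 : Subalgebra k⟦X⟧ (LL k ⊗[k⟦X⟧] ℬ)) (s : ℕ)
    (hs : ∀ x ∈ 𝒞, ∃ b : ℬ, (Algebra.TensorProduct.includeRight : ℬ →ₐ[k⟦X⟧] LL k ⊗[k⟦X⟧] ℬ) b =
      (PowerSeries.X : k⟦X⟧) ^ s • x) :
    Module.Finite k⟦X⟧ 𝒞 ∧ Module.Free k⟦X⟧ 𝒞 ∧ IsReduced (LL k ⊗[k⟦X⟧] 𝒞) ∧
      Module.finrank k⟦X⟧ 𝒞 ≤ Module.finrank k⟦X⟧ ℬ := by
  have hι : Function.Injective
      (Algebra.TensorProduct.includeRight : ℬ →ₐ[k⟦X⟧] LL k ⊗[k⟦X⟧] ℬ) :=
    Algebra.TensorProduct.includeRight_injective algebraMap_LL_injective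
  have hX : (algebraMap k⟦X⟧ (LL k)) PowerSeries.X ≠ 0 := fun h =>
    PowerSeries.X_ne_zero ((map_eq_zero_iff _ algebraMap_LL_injective).mp h)
  have hK : ∀ (n : ℕ) (x : LL k ⊗[k⟦X⟧] ℬ), (PowerSeries.X : k⟦X⟧) ^ n • x = 0 → x = 0 := by
    intro n x h
    rw [← algebraMap_smul (LL k), map_pow] at h
    exact (smul_eq_zero.mp h).resolve_left (pow_ne_zero n hX)
  set ι : ℬ →ₐ[k⟦X⟧] LL k ⊗[k⟦X⟧] ℬ := Algebra.TensorProduct.includeRight with hιdef
  let e := LinearEquiv.ofInjective ι.toLinearMap hι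
  let f0 : 𝒞 →ₗ[k⟦X⟧] LinearMap.range ι.toLinearMap :=
    ((PowerSeries.X : k⟦X⟧) ^ s • 𝒞.val.toLinearMap).codRestrict (LinearMap.range ι.toLinearMap)
      (fun x => by
        obtain ⟨b, hb⟩ := hs x x.2
        exact ⟨b, hb⟩)
  let f : 𝒞 →ₗ[k⟦X⟧] ℬ := e.symm.toLinearMap ∘ₗ f0
  have hf : ∀ x : 𝒞, ι (f x) = (PowerSeries.X : k⟦X⟧) ^ s • (x : LL k ⊗[k⟦X⟧] ℬ) := by
    intro x
    have h1 : e (f x) = f0 x := e.apply_symm_apply (f0 x)
    exact congrArg Subtype.val h1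
  have hfinj : Function.Injective f := by
    rw [injective_iff_map_eq_zero]
    intro x hx
    have h1 := hf x
    rw [hx, map_zero] at h1
    exact Subtype.ext (hK s x h1.symm)
  have hfin : Module.Finite k⟦X⟧ 𝒞 := Module.Finite.of_injective f hfinj
  have hfree : Module.Free k⟦X⟧ 𝒞 := Module.Free.of_equiv (LinearEquiv.ofInjective f hfinj).symm
  refine ⟨hfin, hfree, ?_, LinearMap.finrank_le_finrank_of_injective hfinj⟩
  let μ : (LL k ⊗[k⟦X⟧] 𝒞) →ₐ[k⟦X⟧] (LL k ⊗[k⟦X⟧] ℬ) :=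
    Algebra.TensorProduct.productMap Algebra.TensorProduct.includeLeft 𝒞.val
  have h1 : ∀ z : LL k ⊗[k⟦X⟧] 𝒞, (f.lTensor (LL k)) z = (PowerSeries.X : k⟦X⟧) ^ s • μ z := by
    intro z
    induction z using TensorProduct.induction_on with
    | zero => simp
    | add x y hx hy => rw [map_add, hx, hy, map_add, smul_add]
    | tmul l x =>
      rw [LinearMap.lTensor_tmul]
      change _ = (PowerSeries.X : k⟦X⟧) ^ s •
        (Algebra.TensorProduct.productMap Algebra.TensorProduct.includeLeft 𝒞.val (l ⊗ₜ x))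
      rw [Algebra.TensorProduct.productMap_apply_tmul, ← mul_smul_comm]
      change _ = _ * ((PowerSeries.X : k⟦X⟧) ^ s • (x : LL k ⊗[k⟦X⟧] ℬ))
      rw [← hf x]
      change _ = (l ⊗ₜ[k⟦X⟧] (1 : ℬ)) * ((1 : LL k) ⊗ₜ[k⟦X⟧] f x)
      rw [Algebra.TensorProduct.tmul_mul_tmul, mul_one, one_mul]
  have h2 : Function.Injective (f.lTensor (LL k)) :=
    Module.Flat.lTensor_preserves_injective_linearMap (M := LL k) f hfinj
  have hμ : Function.Injective μ := by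
    rw [injective_iff_map_eq_zero]
    intro z hz
    apply h2
    rw [h1, hz, smul_zero, map_zero]
  exact isReduced_of_injective μ hμ

/-- Families pass to degenerations. -/
theorem Fam.dg {A A₀ : Type} [CommRing A] [Algebra k A] [CommRing A₀] [Algebra k A₀] {D : ℕ}
    (h : Fam k A D) (hd : Dg k A A₀) : Fam k A₀ D := by
  classical
  obtain ⟨𝒜, i1, i2, c, m, θ, η, π, hfin, hfree, hθ, hθ1, hη, hπ, hπC⟩ := hd
  obtain ⟨e, he, D', hD', hram⟩ := exists_ram_data h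
  set n := Module.finrank k⟦X⟧ 𝒜 with hn
  let a := Module.finBasis k⟦X⟧ 𝒜
  have hint : ∀ i, ∃ P : Polynomial k⟦X⟧, P.Monic ∧ Polynomial.aeval (a i) P = 0 := fun i =>
    Algebra.IsIntegral.isIntegral (a i)
  choose P hP1 hP2 using hint
  set ph := ∑ i, (P i).natDegree with hph
  set g := ph + D' * (e * (ph + 1)) with hg
  set M := c * (n * g) + m + 1 + c * (ph + 2) * e with hM
  obtain ⟨ℬ, j1, j2, hBfin, hBfree, hBrank, hBred, Ψ, E, hΨs, hΨE, hΨC, hN⟩ := hram M (by omega)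
  have hX : (algebraMap k⟦X⟧ (LL k)) PowerSeries.X ≠ 0 := fun h =>
    PowerSeries.X_ne_zero ((map_eq_zero_iff _ algebraMap_LL_injective).mp h)
  obtain ⟨𝒞, hh, s, hhs, hhC, h𝒞⟩ := core2 (PowerSeries.X : k⟦X⟧)
    (Algebra.TensorProduct.includeRight : ℬ →ₐ[k⟦X⟧] LL k ⊗[k⟦X⟧] ℬ)
    (Algebra.TensorProduct.includeRight_injective algebraMap_LL_injective)
    (by
      intro n x h
      rw [← algebraMap_smul (LL k), map_pow] at h
      exact (smul_eq_zero.mp h).resolve_left (pow_ne_zero n hX))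
    (by
      intro n x
      refine ⟨((algebraMap k⟦X⟧ (LL k) PowerSeries.X) ^ n)⁻¹ • x, ?_⟩
      rw [← algebraMap_smul (LL k), map_pow, smul_smul, mul_inv_cancel₀ (pow_ne_zero n hX),
        one_smul])
    (by
      intro n x h
      exact (smul_eq_zero.mp h).resolve_left (pow_ne_zero n PowerSeries.X_ne_zero))
    c m e he θ η hθ hθ1 hη π hπ (by rw [hπC, PowerSeries.constantCoeff_X, map_zero])
    (n := n) a (by
      rw [eq_top_iff]
      intro x _
      rw [← a.sum_repr x]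
      exact Subalgebra.sum_mem _ fun i _ => Subalgebra.smul_mem _
        (Algebra.subset_adjoin (Set.mem_range_self i)) _)
    P hP1 hP2 ph (fun i => Finset.single_le_sum (f := fun i => (P i).natDegree)
      (fun _ _ => Nat.zero_le _) (Finset.mem_univ i)) g (by rw [hBrank]) M le_rfl Ψ E hΨs hΨE hΨC hN
  obtain ⟨h1, h2, h3, h4⟩ := lattice_data hBred 𝒞 s h𝒞
  refine ⟨𝒞, inferInstance, inferInstance, h1, h2, h3, h4.trans (hBrank.le.trans hD'), hh, hhs,
    fun c => ?_⟩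
  rw [hhC, hπC]

end Pool.Agent.R566.DG
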