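import Pool.Agent.R566.DG.Rk

/-!
# Associated graded algebras are degenerations
-/

set_option autoImplicit false

namespace Pool.Agent.R566.DG

open scoped TensorProduct PowerSeries
open Pool.Agent.H826R3.SM Pool.Agent.R566.CV Pool.Agent.TH671.DU

variable {k : Type} [Field k]

theorem gr_core {W A₀ : Type} [CommRing W] [Algebra k⟦X⟧ W] [CommRing A₀] [Algebra k A₀] {d : ℕ}
    (a : Fin d → W) (ha : LinearIndependent k⟦X⟧ a) (b₀ : Module.Basis (Fin d) k A₀)
    (g : Fin d → Fin d → Fin d → k⟦X⟧) (e : Fin d → k⟦X⟧)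
    (hg : ∀ i j, a i * a j = ∑ m, g i j m • a m) (he : (1 : W) = ∑ m, e m • a m)
    (hg₀ : ∀ i j, b₀ i * b₀ j = ∑ m, PowerSeries.constantCoeff (g i j m) • b₀ m)
    (he₀ : (1 : A₀) = ∑ m, PowerSeries.constantCoeff (e m) • b₀ m) :
    ∃ (𝒜 : Subalgebra k⟦X⟧ W) (B : Module.Basis (Fin d) k⟦X⟧ 𝒜), (∀ i, (B i : W) = a i) ∧
      ∃ π : 𝒜 →+* A₀, Function.Surjective π ∧
        (∀ c : k⟦X⟧, π (algebraMap k⟦X⟧ 𝒜 c) = algebraMap k A₀ (PowerSeries.constantCoeff c)) ∧
        ∀ x, π x = 0 → ∃ y, x = (PowerSeries.X : k⟦X⟧) • y := by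
  classical
  set S : Submodule k⟦X⟧ W := Submodule.span k⟦X⟧ (Set.range a) with hS
  have haS : ∀ i, a i ∈ S := fun i => Submodule.subset_span ⟨i, rfl⟩
  have hone : (1 : W) ∈ S := by
    rw [he]
    exact S.sum_mem fun m _ => S.smul_mem _ (haS m)
  have hmul : ∀ x ∈ S, ∀ y ∈ S, x * y ∈ S := by
    intro x hx y hy
    induction hx using Submodule.span_induction with
    | zero => rw [zero_mul]; exact S.zero_mem
    | add x x' _ _ h1 h2 => rw [add_mul]; exact S.add_mem h1 h2
    | smul r x _ h1 => rw [smul_mul_assoc]; exact S.smul_mem _ h1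
    | mem x hx =>
      obtain ⟨i, rfl⟩ := hx
      induction hy using Submodule.span_induction with
      | zero => rw [mul_zero]; exact S.zero_mem
      | add x x' _ _ h1 h2 => rw [mul_add]; exact S.add_mem h1 h2
      | smul r x _ h1 => rw [mul_smul_comm]; exact S.smul_mem _ h1
      | mem y hy =>
        obtain ⟨j, rfl⟩ := hy
        rw [hg]
        exact S.sum_mem fun m _ => S.smul_mem _ (haS m)
  let 𝒜 : Subalgebra k⟦X⟧ W :=
    { carrier := S
      mul_mem' := fun {x y} hx hy => hmul x hx y hy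
      add_mem' := fun {x y} hx hy => S.add_mem hx hy
      algebraMap_mem' := fun r => by
        rw [Algebra.algebraMap_eq_smul_one]
        exact S.smul_mem _ hone }
  let B : Module.Basis (Fin d) k⟦X⟧ 𝒜 := Module.Basis.span ha
  have hB : ∀ i, (B i : W) = a i := fun i =>
    congrArg Subtype.val (Module.Basis.span_apply ha i)
  have hBg : ∀ i j, B i * B j = ∑ m, g i j m • B m := by
    intro i j
    apply Subtype.ext
    rw [Subalgebra.coe_mul, hB, hB, hg]
    rw [AddSubmonoidClass.coe_finsetSum]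
    refine Finset.sum_congr rfl fun m _ => ?_
    rw [Subalgebra.coe_smul, hB]
  have hBe : (1 : 𝒜) = ∑ m, e m • B m := by
    apply Subtype.ext
    rw [AddSubmonoidClass.coe_finsetSum, Subalgebra.coe_one, he]
    refine Finset.sum_congr rfl fun m _ => ?_
    rw [Subalgebra.coe_smul, hB]
  let φ : 𝒜 → A₀ := fun x => ∑ i, PowerSeries.constantCoeff (B.repr x i) • b₀ i
  have hφadd : ∀ x y, φ (x + y) = φ x + φ y := by
    intro x y
    change ∑ i, _ = ∑ i, _ + ∑ i, _
    rw [← Finset.sum_add_distrib]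
    refine Finset.sum_congr rfl fun i _ => ?_
    rw [map_add, Finsupp.add_apply, map_add, add_smul]
  have hφ0 : φ 0 = 0 := by
    have := hφadd 0 0
    rw [add_zero] at this
    exact left_eq_add.mp this
  have hφsmul : ∀ (r : k⟦X⟧) x, φ (r • x) = PowerSeries.constantCoeff r • φ x := by
    intro r x
    change ∑ i, _ = _ • ∑ i, _
    rw [Finset.smul_sum]
    refine Finset.sum_congr rfl fun i _ => ?_
    rw [map_smul, Finsupp.smul_apply, smul_eq_mul, map_mul, smul_smul]
  have hφsum : ∀ (s : Finset (Fin d)) (f : Fin d → 𝒜), φ (∑ i ∈ s, f i) = ∑ i ∈ s, φ (f i) := by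
    intro s f
    induction s using Finset.induction_on with
    | empty => simpa using hφ0
    | insert i s hi ih => rw [Finset.sum_insert hi, Finset.sum_insert hi, hφadd, ih]
  have hφB : ∀ i, φ (B i) = b₀ i := by
    intro i
    change ∑ j, PowerSeries.constantCoeff (B.repr (B i) j) • b₀ j = _
    rw [Finset.sum_eq_single i]
    · rw [Module.Basis.repr_self, Finsupp.single_eq_same, map_one, one_smul]
    · intro j _ hj
      rw [Module.Basis.repr_self, Finsupp.single_eq_of_ne hj, map_zero, zero_smul]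
    · intro h
      exact absurd (Finset.mem_univ i) h
  have hφBB : ∀ i j, φ (B i * B j) = b₀ i * b₀ j := by
    intro i j
    rw [hBg, hφsum, hg₀]
    refine Finset.sum_congr rfl fun m _ => ?_
    rw [hφsmul, hφB]
  have hφ1 : φ 1 = 1 := by
    rw [hBe, hφsum, he₀]
    refine Finset.sum_congr rfl fun m _ => ?_
    rw [hφsmul, hφB]
  have hφmul : ∀ x y, φ (x * y) = φ x * φ y := by
    intro x y
    have hx : φ x = ∑ i, PowerSeries.constantCoeff (B.repr x i) • b₀ i := rfl
    have hy : φ y = ∑ i, PowerSeries.constantCoeff (B.repr y i) • b₀ i := rfl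
    rw [hx, hy, Finset.sum_mul_sum]
    conv_lhs => rw [← B.sum_repr x, ← B.sum_repr y, Finset.sum_mul_sum]
    rw [hφsum]
    refine Finset.sum_congr rfl fun i _ => ?_
    rw [hφsum]
    refine Finset.sum_congr rfl fun j _ => ?_
    rw [smul_mul_smul_comm, hφsmul, hφBB, map_mul, smul_mul_smul_comm]
  let π : 𝒜 →+* A₀ :=
    { toFun := φ
      map_one' := hφ1
      map_mul' := hφmul
      map_zero' := hφ0
      map_add' := hφadd }
  refine ⟨𝒜, B, hB, π, ?_, ?_, ?_⟩
  · intro z
    refine ⟨∑ i, PowerSeries.C (b₀.repr z i) • B i, ?_⟩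
    change φ _ = z
    rw [hφsum]
    conv_rhs => rw [← b₀.sum_repr z]
    refine Finset.sum_congr rfl fun i _ => ?_
    rw [hφsmul, hφB, PowerSeries.constantCoeff_C]
  · intro c
    change φ (algebraMap k⟦X⟧ 𝒜 c) = _
    rw [Algebra.algebraMap_eq_smul_one, hφsmul, hφ1, Algebra.algebraMap_eq_smul_one]
  · intro x hx
    have h1 : ∑ i, PowerSeries.constantCoeff (B.repr x i) • b₀ i = 0 := hx
    have h2 := Fintype.linearIndependent_iff.mp b₀.linearIndependent _ h1
    choose r hr using fun i => (PowerSeries.X_dvd_iff (φ := B.repr x i)).mpr (h2 i)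
    refine ⟨∑ i, r i • B i, ?_⟩
    conv_lhs => rw [← B.sum_repr x]
    rw [Finset.smul_sum]
    refine Finset.sum_congr rfl fun i _ => ?_
    rw [hr, mul_smul]

/-- `A₀` is the graded algebra associated with a finite filtration of `A` (in adapted bases): the
products of the elements of a basis of `A` have no components of too small level, and `A₀` has a
basis with the structure constants of the components of the smallest possible level. -/
def IsGr (k : Type) [Field k] (A A₀ : Type) [CommRing A] [Algebra k A] [CommRing A₀]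
    [Algebra k A₀] : Prop :=
  ∃ (d : ℕ) (b : Module.Basis (Fin d) k A) (b₀ : Module.Basis (Fin d) k A₀) (l : Fin d → ℤ),
    (∀ i j m, (l m < l i + l j → b.repr (b i * b j) m = 0) ∧
      b₀.repr (b₀ i * b₀ j) m = if l m = l i + l j then b.repr (b i * b j) m else 0) ∧
    ∀ m, (l m < 0 → b.repr 1 m = 0) ∧ b₀.repr 1 m = if l m = 0 then b.repr 1 m else 0

/-- the coefficient `c * t ^ n` -/
noncomputable def cf (c : k) (n : ℤ) : k⟦X⟧ :=
  if 0 ≤ n then PowerSeries.C c * PowerSeries.X ^ n.toNat else 0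

theorem cf_const (c : k) (n : ℤ) :
    PowerSeries.constantCoeff (cf c n) = if n = 0 then c else 0 := by
  unfold cf
  by_cases h : 0 ≤ n
  · rw [if_pos h, map_mul, PowerSeries.constantCoeff_C, map_pow, PowerSeries.constantCoeff_X]
    by_cases h0 : n = 0
    · rw [if_pos h0, h0, Int.toNat_zero, pow_zero, mul_one]
    · rw [if_neg h0, zero_pow (by omega), mul_zero]
  · rw [if_neg h, map_zero, if_neg (by omega)]

theorem cf_map (c : k) (n : ℤ) (h : n < 0 → c = 0) :
    algebraMap k⟦X⟧ (LaurentSeries k) (cf c n) =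
      algebraMap k⟦X⟧ (LaurentSeries k) (PowerSeries.C c) *
        (algebraMap k⟦X⟧ (LaurentSeries k) PowerSeries.X) ^ n := by
  unfold cf
  by_cases h0 : 0 ≤ n
  · rw [if_pos h0, map_mul, map_pow]
    congr 1
    rw [← zpow_natCast, Int.toNat_of_nonneg h0]
  · rw [if_neg h0, h (by omega)]
    simp only [map_zero, zero_mul]

/-- abstract form of the construction -/
theorem gr_core2 {A A₀ W : Type} [CommRing A] [Algebra k A] [CommRing A₀] [Algebra k A₀]
    [CommRing W] [Algebra (LaurentSeries k) W] [Algebra k⟦X⟧ W]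
    [IsScalarTower k⟦X⟧ (LaurentSeries k) W] {d : ℕ} (b : Module.Basis (Fin d) k A)
    (b₀ : Module.Basis (Fin d) k A₀) (l : Fin d → ℤ)
    (hm : ∀ i j m, (l m < l i + l j → b.repr (b i * b j) m = 0) ∧
      b₀.repr (b₀ i * b₀ j) m = if l m = l i + l j then b.repr (b i * b j) m else 0)
    (h1 : ∀ m, (l m < 0 → b.repr 1 m = 0) ∧ b₀.repr 1 m = if l m = 0 then b.repr 1 m else 0)
    (w : Module.Basis (Fin d) (LaurentSeries k) W) (ι : A → W) (hw : ∀ i, w i = ι (b i))
    (hιmul : ∀ x y, ι (x * y) = ι x * ι y) (hι1 : ι 1 = 1)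
    (hιsum : ∀ x, ι x = ∑ m, algebraMap k⟦X⟧ (LaurentSeries k) (PowerSeries.C (b.repr x m)) •
      w m) :
    ∃ (𝒜 : Type) (_ : CommRing 𝒜) (_ : Algebra k⟦X⟧ 𝒜), Module.Finite k⟦X⟧ 𝒜 ∧
      Module.Free k⟦X⟧ 𝒜 ∧ Nonempty ((LaurentSeries k ⊗[k⟦X⟧] 𝒜) ≃ₐ[LaurentSeries k] W) ∧
      ∃ π : 𝒜 →+* A₀, Function.Surjective π ∧
        (∀ c : k⟦X⟧, π (algebraMap k⟦X⟧ 𝒜 c) = algebraMap k A₀ (PowerSeries.constantCoeff c)) ∧
        ∀ x, π x = 0 → ∃ y, x = (PowerSeries.X : k⟦X⟧) • y := by
  classical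
  set T : LaurentSeries k := algebraMap k⟦X⟧ (LaurentSeries k) PowerSeries.X with hT
  have hinj : Function.Injective (algebraMap k⟦X⟧ (LaurentSeries k)) :=
    IsFractionRing.injective k⟦X⟧ (LaurentSeries k)
  have hT0 : T ≠ 0 := fun h0 => PowerSeries.X_ne_zero ((map_eq_zero_iff _ hinj).mp h0)
  let u : Module.Basis (Fin d) (LaurentSeries k) W :=
    w.isUnitSMul (w := fun i => T ^ (-l i)) fun i => (zpow_ne_zero _ hT0).isUnit
  have hu : ∀ i, u i = T ^ (-l i) • w i := fun i => Module.Basis.isUnitSMul_apply _ i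
  have hwu : ∀ i, w i = T ^ (l i) • u i := fun i => by
    rw [hu, smul_smul, ← zpow_add₀ hT0, add_neg_cancel, zpow_zero, one_smul]
  have hterm : ∀ (c : k) (n : ℤ) (m : Fin d), (n < 0 → c = 0) →
      cf c n • u m = (algebraMap k⟦X⟧ (LaurentSeries k) (PowerSeries.C c) * T ^ n) • u m := by
    intro c n m hc
    rw [← cf_map c n hc, algebraMap_smul]
  obtain ⟨𝒜, B, hB, π, hπ, hπC, hker⟩ := gr_core (k := k) (fun i => u i)
    (u.linearIndependent.restrict_scalars (by
      intro x y hxy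
      apply hinj
      have h3 : algebraMap k⟦X⟧ (LaurentSeries k) x * 1 =
        algebraMap k⟦X⟧ (LaurentSeries k) y * 1 := by
        rw [← Algebra.smul_def, ← Algebra.smul_def]
        exact hxy
      rwa [mul_one, mul_one] at h3)) b₀
    (fun i j m => cf (b.repr (b i * b j) m) (l m - l i - l j))
    (fun m => cf (b.repr 1 m) (l m)) (by
      intro i j
      rw [hu, hu, smul_mul_smul_comm, hw, hw, ← hιmul, hιsum, Finset.smul_sum]
      refine Finset.sum_congr rfl fun m _ => ?_
      rw [hterm _ _ _ fun h3 => (hm i j m).1 (by omega), hwu m, smul_smul, smul_smul]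
      congr 1
      have h4 : T ^ (l m - l i - l j) = T ^ (-l i) * T ^ (-l j) * T ^ (l m) := by
        rw [← zpow_add₀ hT0, ← zpow_add₀ hT0]
        congr 1
        ring
      rw [h4]
      ring) (by
      rw [← hι1, hιsum]
      refine Finset.sum_congr rfl fun m _ => ?_
      rw [hterm _ _ _ fun h3 => (h1 m).1 h3, hwu m, smul_smul]) (by
      intro i j
      conv_lhs => rw [← b₀.sum_repr (b₀ i * b₀ j)]
      refine Finset.sum_congr rfl fun m _ => ?_
      rw [cf_const, (hm i j m).2]
      congr 1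
      by_cases h3 : l m = l i + l j
      · rw [if_pos h3, if_pos (by omega)]
      · rw [if_neg h3, if_neg (by omega)]) (by
      conv_lhs => rw [← b₀.sum_repr 1]
      refine Finset.sum_congr rfl fun m _ => ?_
      rw [cf_const, (h1 m).2])
  refine ⟨𝒜, inferInstance, inferInstance, Module.Finite.of_basis B, Module.Free.of_basis B, ⟨?_⟩,
    π, hπ, hπC, hker⟩
  let Φ : (LaurentSeries k ⊗[k⟦X⟧] 𝒜) →ₐ[LaurentSeries k] W :=
    Algebra.TensorProduct.lift (Algebra.ofId _ _) 𝒜.val (fun _ _ => Commute.all _ _)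
  have hΦ : Φ.toLinearMap = ((Algebra.TensorProduct.basis (LaurentSeries k) B).equiv u
      (Equiv.refl _)).toLinearMap := by
    apply (Algebra.TensorProduct.basis (LaurentSeries k) B).ext
    intro i
    rw [LinearEquiv.coe_coe, Module.Basis.equiv_apply, Algebra.TensorProduct.basis_apply]
    change Φ (1 ⊗ₜ B i) = _
    rw [Algebra.TensorProduct.lift_tmul, map_one, one_mul]
    exact hB i
  have hbij : Function.Bijective Φ := by
    have h2 : (Φ : _ → _) = ((Algebra.TensorProduct.basis (LaurentSeries k) B).equiv u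
        (Equiv.refl _)) := by
      funext x
      exact LinearMap.congr_fun hΦ x
    rw [h2]
    exact LinearEquiv.bijective _
  exact AlgEquiv.ofBijective Φ hbij

section nest

variable {A : Type} [CommRing A] [Algebra k A]

/-- the embedding of `A` in the generic fibre of the constant family -/
noncomputable def emb (k : Type) [Field k] (A : Type) [CommRing A] [Algebra k A] (x : A) :
    LaurentSeries k ⊗[k⟦X⟧] (k⟦X⟧ ⊗[k] A) :=
  (Algebra.TensorProduct.includeRight :
    (k⟦X⟧ ⊗[k] A) →ₐ[k⟦X⟧] LaurentSeries k ⊗[k⟦X⟧] (k⟦X⟧ ⊗[k] A))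
    ((Algebra.TensorProduct.includeRight : A →ₐ[k] k⟦X⟧ ⊗[k] A) x)

theorem emb_mul (x y : A) : emb k A (x * y) = emb k A x * emb k A y := by
  unfold emb
  rw [map_mul, map_mul]

theorem emb_one : emb k A 1 = 1 := by
  unfold emb
  rw [map_one, map_one]

theorem emb_sum {d : ℕ} (f : Fin d → A) : emb k A (∑ i, f i) = ∑ i, emb k A (f i) := by
  unfold emb
  rw [map_sum, map_sum]

theorem emb_smul (c : k) (x : A) : emb k A (c • x) =
    algebraMap k⟦X⟧ (LaurentSeries k) (PowerSeries.C c) • emb k A x := by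
  unfold emb
  have h1 : (Algebra.TensorProduct.includeRight : A →ₐ[k] k⟦X⟧ ⊗[k] A) (c • x) =
      (PowerSeries.C c : k⟦X⟧) • (Algebra.TensorProduct.includeRight : A →ₐ[k] k⟦X⟧ ⊗[k] A) x := by
    change (1 : k⟦X⟧) ⊗ₜ[k] (c • x) = (PowerSeries.C c : k⟦X⟧) • ((1 : k⟦X⟧) ⊗ₜ[k] x)
    rw [← TensorProduct.smul_tmul, TensorProduct.smul_tmul']
    congr 1
    rw [smul_eq_mul, mul_one, PowerSeries.smul_eq_C_mul, mul_one]
  rw [h1, map_smul, algebraMap_smul]

end nest

theorem IsGr.isDeg {A A₀ : Type} [CommRing A] [Algebra k A] [CommRing A₀] [Algebra k A₀]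
    (h : IsGr k A A₀) : IsDeg k A A₀ := by
  obtain ⟨d, b, b₀, l, hm, h1⟩ := h
  have hw : ∀ i, (Algebra.TensorProduct.basis (LaurentSeries k)
      (Algebra.TensorProduct.basis k⟦X⟧ b)) i = emb k A (b i) := fun i => by
    rw [Algebra.TensorProduct.basis_apply, Algebra.TensorProduct.basis_apply]
    rfl
  exact gr_core2 b b₀ l hm h1
    (Algebra.TensorProduct.basis (LaurentSeries k) (Algebra.TensorProduct.basis k⟦X⟧ b))
    (emb k A) hw emb_mul emb_one (fun x => by
      conv_lhs => rw [← b.sum_repr x]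
      rw [emb_sum]
      refine Finset.sum_congr rfl fun m _ => ?_
      rw [emb_smul, hw])

end Pool.Agent.R566.DG
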