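import Pool.Agent.R566.DG.Ten

/-!
# Degenerations from isomorphisms of generic fibres
-/

set_option autoImplicit false

namespace Pool.Agent.R566.DG

open scoped TensorProduct PowerSeries
open Pool.Agent.H826R3.SM Pool.Agent.R566.CV Pool.Agent.TH671.DU

/-- clearing denominators -/
theorem exists_clear {R N N' W : Type} [CommRing R] (t : R) [AddCommGroup N] [Module R N]
    [Module.Finite R N] [AddCommGroup N'] [Module R N'] [AddCommGroup W] [Module R W]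
    (j : N' →ₗ[R] W) (hj : Function.Injective j)
    (hW : ∀ w : W, ∃ (c : ℕ) (x : N'), j x = t ^ c • w) (f : N →ₗ[R] W) :
    ∃ (c : ℕ) (g : N →ₗ[R] N'), ∀ x, j (g x) = t ^ c • f x := by
  classical
  obtain ⟨s, hs⟩ := (Module.Finite.fg_top : (⊤ : Submodule R N).FG)
  choose c0 x0 hx0 using hW
  set c := ∑ x ∈ s, c0 (f x) with hc
  have hmem : ∀ x : N, t ^ c • f x ∈ LinearMap.range j := by
    have h1 : (⊤ : Submodule R N) ≤ (LinearMap.range j).comap (t ^ c • f) := by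
      rw [← hs, Submodule.span_le]
      intro x hx
      have h2 : c0 (f x) ≤ c := Finset.single_le_sum (f := fun x => c0 (f x))
        (fun _ _ => Nat.zero_le _) hx
      refine ⟨t ^ (c - c0 (f x)) • x0 (f x), ?_⟩
      change _ = t ^ c • f x
      rw [map_smul, hx0, smul_smul, ← pow_add, Nat.sub_add_cancel h2]
    exact fun x => h1 (Submodule.mem_top (x := x))
  let e := LinearEquiv.ofInjective j hj
  let g0 : N →ₗ[R] LinearMap.range j := (t ^ c • f).codRestrict (LinearMap.range j) hmem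
  refine ⟨c, e.symm.toLinearMap ∘ₗ g0, fun x => ?_⟩
  have h1 : e (e.symm (g0 x)) = g0 x := e.apply_symm_apply _
  exact congrArg Subtype.val h1

variable {k : Type} [Field k]

/-- every Laurent series is a power series up to a power of the variable -/
theorem exists_clear_laurent (l : LaurentSeries k) : ∃ (c : ℕ) (r : k⟦X⟧),
    algebraMap k⟦X⟧ (LaurentSeries k) r = algebraMap k⟦X⟧ (LaurentSeries k) PowerSeries.X ^ c * l := by
  obtain ⟨⟨r, ⟨_, n, rfl⟩⟩, h⟩ := IsLocalization.surj (Submonoid.powers (PowerSeries.X : k⟦X⟧)) l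
  refine ⟨n, r, ?_⟩
  rw [← h, mul_comm]
  simp

section incl

variable {S : Type} [CommRing S] [Algebra k⟦X⟧ S] [Module.Free k⟦X⟧ S]

/-- the inclusion in the generic fibre -/
noncomputable abbrev jj (k : Type) [Field k] (S : Type) [CommRing S] [Algebra k⟦X⟧ S] :
    S →ₐ[k⟦X⟧] (LaurentSeries k ⊗[k⟦X⟧] S) := Algebra.TensorProduct.includeRight

theorem jj_injective : Function.Injective (jj k S) :=
  Algebra.TensorProduct.includeRight_injective (IsFractionRing.injective k⟦X⟧ (LaurentSeries k))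

omit [Module.Free k⟦X⟧ S] in
theorem jj_clear (w : LaurentSeries k ⊗[k⟦X⟧] S) : ∃ (c : ℕ) (x : S),
    (jj k S).toLinearMap x = (PowerSeries.X : k⟦X⟧) ^ c • w := by
  induction w using TensorProduct.induction_on with
  | zero => exact ⟨0, 0, by rw [map_zero, smul_zero]⟩
  | add x y hx hy =>
    obtain ⟨c, x', hx'⟩ := hx
    obtain ⟨d, y', hy'⟩ := hy
    refine ⟨c + d, (PowerSeries.X : k⟦X⟧) ^ d • x' + (PowerSeries.X : k⟦X⟧) ^ c • y', ?_⟩
    rw [map_add, map_smul, map_smul, hx', hy', smul_smul, smul_smul, ← pow_add, ← pow_add,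
      add_comm d c, smul_add]
  | tmul l a =>
    obtain ⟨c, r, hr⟩ := exists_clear_laurent l
    refine ⟨c, r • a, ?_⟩
    change (1 : LaurentSeries k) ⊗ₜ[k⟦X⟧] (r • a) = _
    rw [TensorProduct.smul_tmul', ← TensorProduct.smul_tmul, Algebra.smul_def, mul_one, hr,
      Algebra.smul_def, map_pow]

end incl

theorem dg_of_iso {A A₀ 𝒜 : Type} [CommRing A] [Algebra k A] [Module.Finite k A] [CommRing A₀]
    [Algebra k A₀] [CommRing 𝒜] [Algebra k⟦X⟧ 𝒜] [Module.Finite k⟦X⟧ 𝒜] [Module.Free k⟦X⟧ 𝒜]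
    (Φ : (LaurentSeries k ⊗[k⟦X⟧] 𝒜) ≃ₐ[LaurentSeries k] (LaurentSeries k ⊗[k⟦X⟧] (k⟦X⟧ ⊗[k] A)))
    (π : 𝒜 →+* A₀) (hπ : Function.Surjective π)
    (hπC : ∀ r : k⟦X⟧, π (algebraMap k⟦X⟧ 𝒜 r) = algebraMap k A₀ (PowerSeries.constantCoeff r)) :
    Dg k A A₀ := by
  let ΦR : (LaurentSeries k ⊗[k⟦X⟧] 𝒜) ≃ₐ[k⟦X⟧] (LaurentSeries k ⊗[k⟦X⟧] (k⟦X⟧ ⊗[k] A)) :=
    Φ.restrictScalars k⟦X⟧
  obtain ⟨c, θ, hθ⟩ := exists_clear (PowerSeries.X : k⟦X⟧) (jj k (k⟦X⟧ ⊗[k] A)).toLinearMap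
    jj_injective jj_clear (ΦR.toLinearMap ∘ₗ (jj k 𝒜).toLinearMap)
  obtain ⟨c', η, hη⟩ := exists_clear (PowerSeries.X : k⟦X⟧) (jj k 𝒜).toLinearMap jj_injective
    jj_clear (ΦR.symm.toLinearMap ∘ₗ (jj k (k⟦X⟧ ⊗[k] A)).toLinearMap)
  have hθ' : ∀ x, jj k (k⟦X⟧ ⊗[k] A) (θ x) = (PowerSeries.X : k⟦X⟧) ^ c • ΦR (jj k 𝒜 x) := hθ
  have hη' : ∀ x, jj k 𝒜 (η x) =
    (PowerSeries.X : k⟦X⟧) ^ c' • ΦR.symm (jj k (k⟦X⟧ ⊗[k] A) x) := hη
  refine ⟨𝒜, inferInstance, inferInstance, c, c' + c, θ, η, π, inferInstance, inferInstance,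
    ?_, ?_, ?_, hπ, hπC⟩
  · intro x y
    apply jj_injective (k := k) (S := k⟦X⟧ ⊗[k] A)
    rw [map_mul, hθ', hθ', map_smul, hθ', map_mul, map_mul, smul_mul_smul_comm, smul_smul]
  · apply jj_injective (k := k) (S := k⟦X⟧ ⊗[k] A)
    rw [hθ', map_one, map_one, map_smul, map_one]
  · intro x
    apply jj_injective (k := k) (S := 𝒜)
    rw [hη', hθ', map_smul, ΦR.symm_apply_apply, smul_smul, map_smul, pow_add]

end Pool.Agent.R566.DG
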