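import Pool.Agent.R566.DG.Ram
import Pool.Agent.R566.DG.Alg
import Pool.Agent.R566.CV.Inj

/-!
# Families and degenerations
-/

set_option autoImplicit false

namespace Pool.Agent.R566.DG

open scoped TensorProduct PowerSeries
open Pool.Agent.H826R3.SM Pool.Agent.R566.CV

variable {k : Type} [Field k]

/-- A lattice `𝒜` in `A((t))` which is a subring, up to powers of `t`: `θ` is `t ^ c` times the
inclusion. -/
def Dg (k : Type) [Field k] (A A₀ : Type) [CommRing A] [Algebra k A] [CommRing A₀] [Algebra k A₀] :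
    Prop :=
  ∃ (𝒜 : Type) (_ : CommRing 𝒜) (_ : Algebra k⟦X⟧ 𝒜) (c m : ℕ)
    (θ : 𝒜 →ₗ[k⟦X⟧] (k⟦X⟧ ⊗[k] A)) (η : (k⟦X⟧ ⊗[k] A) →ₗ[k⟦X⟧] 𝒜) (π : 𝒜 →+* A₀),
    Module.Finite k⟦X⟧ 𝒜 ∧ Module.Free k⟦X⟧ 𝒜 ∧
    (∀ x y, θ x * θ y = (PowerSeries.X : k⟦X⟧) ^ c • θ (x * y)) ∧
    θ 1 = (PowerSeries.X : k⟦X⟧) ^ c • 1 ∧
    (∀ x, η (θ x) = (PowerSeries.X : k⟦X⟧) ^ m • x) ∧ Function.Surjective π ∧
    ∀ r : k⟦X⟧, π (algebraMap k⟦X⟧ 𝒜 r) = algebraMap k A₀ (PowerSeries.constantCoeff r)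

/-- the comparison map, abstract form -/
theorem core {R A AR ℬ ℬ' : Type} [CommRing R] [CommRing A] [CommRing AR] [Algebra R AR]
    [CommRing ℬ] [Algebra R ℬ] [CommRing ℬ'] [Algebra R ℬ'] (u : R) (φ con : R →+* R)
    (hφ : ∀ c, ∃ r, φ c = con c + u * r) (p : ℬ →+* A) (hp : Function.Surjective p)
    (j : A →+* AR) (hj : ∀ c, j (p (algebraMap R ℬ c)) = algebraMap R AR (con c))
    (hUPA : ∀ (Q : Type) [CommRing Q] (f : R →+* Q) (g : A →+* Q),
      (∀ c, f (con c) = g (p (algebraMap R ℬ c))) →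
      ∃ σ : AR →+* Q, (∀ r, σ (algebraMap R AR r) = f r) ∧ ∀ a, σ (j a) = g a)
    (hgenA : ∀ T : Subalgebra R AR, (∀ a, j a ∈ T) → T = ⊤)
    (ρ : ℬ →+* ℬ') (hρ : ∀ c, ρ (algebraMap R ℬ c) = algebraMap R ℬ' (φ c))
    (hgen : ∀ T : Subalgebra R ℬ', (∀ x, ρ x ∈ T) → T = ⊤)
    (hUP : ∀ (Z : Type) [CommRing Z] (f : R →+* Z) (g : ℬ →+* Z),
        (∀ c, f (φ c) = g (algebraMap R ℬ c)) →
        ∃ h : ℬ' →+* Z, (∀ r, h (algebraMap R ℬ' r) = f r) ∧ ∀ x, h (ρ x) = g x)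
    (E Xb : ℬ) (hpE : p E = 1) (e : ℕ)
    (hcut : (Ideal.span {E} * RingHom.ker p) ^ e ≤ Ideal.span {Xb})
    (hρX : ρ Xb = algebraMap R ℬ' u) :
    ∃ Ψ : ℬ' →+* AR ⧸ Ideal.span {algebraMap R AR u}, Function.Surjective Ψ ∧ Ψ (ρ E) = 1 ∧
      (∀ r, Ψ (algebraMap R ℬ' r) = Ideal.Quotient.mk _ (algebraMap R AR r)) ∧
      ∀ y, Ψ y = 0 → ∃ z, (ρ E * y) ^ e = u • z := by
  set tM : AR := algebraMap R AR u with htM
  set mk := Ideal.Quotient.mk (Ideal.span {tM}) with hmk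
  have hmk0 : mk tM = 0 := Ideal.Quotient.eq_zero_iff_mem.mpr (Ideal.mem_span_singleton_self _)
  -- the map `Ψ`
  obtain ⟨Ψ, hΨ1, hΨ2⟩ := hUP (AR ⧸ Ideal.span {tM})
    (mk.comp (algebraMap R AR)) (mk.comp (j.comp p)) (by
      intro c
      obtain ⟨r', hr'⟩ := hφ c
      change mk (algebraMap R AR (φ c)) = mk (j (p (algebraMap R ℬ c)))
      rw [hr', map_add, map_mul, map_add, map_mul, ← htM, hmk0, zero_mul, add_zero, hj])
  have hΨ1' : ∀ r, Ψ (algebraMap R ℬ' r) = mk (algebraMap R AR r) := hΨ1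
  have hΨ2' : ∀ x, Ψ (ρ x) = mk (j (p x)) := hΨ2
  -- the kernel of `Ψ`
  set q : Ideal ℬ' := (RingHom.ker p).map ρ ⊔ Ideal.span {algebraMap R ℬ' u} with hq
  have hqu : Ideal.Quotient.mk q (algebraMap R ℬ' u) = 0 :=
    Ideal.Quotient.eq_zero_iff_mem.mpr (Ideal.mem_sup_right (Ideal.mem_span_singleton_self _))
  have hker : ∀ y, Ψ y = 0 → y ∈ q := by
    obtain ⟨sA, hsA⟩ : ∃ sA : A →+* ℬ' ⧸ q, ∀ x, sA (p x) = Ideal.Quotient.mk q (ρ x) := by
      have hle : RingHom.ker p ≤ RingHom.ker ((Ideal.Quotient.mk q).comp ρ) := by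
        intro x hx
        change (Ideal.Quotient.mk q) (ρ x) = 0
        rw [Ideal.Quotient.eq_zero_iff_mem]
        exact Ideal.mem_sup_left (Ideal.mem_map_of_mem ρ hx)
      refine ⟨RingHom.liftOfRightInverse p (Function.surjInv hp) (Function.rightInverse_surjInv hp)
        ⟨(Ideal.Quotient.mk q).comp ρ, hle⟩, fun x => ?_⟩
      exact RingHom.liftOfRightInverse_comp_apply p _ _ ⟨(Ideal.Quotient.mk q).comp ρ, hle⟩ x
    obtain ⟨σ₀, hσ1, hσ2⟩ := hUPA (ℬ' ⧸ q) ((Ideal.Quotient.mk q).comp (algebraMap R ℬ'))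
      sA (by
        intro c
        obtain ⟨r', hr'⟩ := hφ c
        rw [hsA, hρ, hr', map_add, map_mul, map_add, map_mul, hqu, zero_mul, add_zero]
        rfl)
    let σ : (AR ⧸ Ideal.span {tM}) →+* ℬ' ⧸ q := Ideal.Quotient.lift _ σ₀ (by
      intro x hx
      obtain ⟨z, rfl⟩ := Ideal.mem_span_singleton.mp hx
      rw [map_mul, htM, hσ1]
      change Ideal.Quotient.mk q (algebraMap R ℬ' u) * _ = 0
      rw [hqu, zero_mul])
    have hσmk : ∀ z, σ (mk z) = σ₀ z := fun z => rfl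
    let T : Subalgebra R ℬ' :=
      { carrier := {y | σ (Ψ y) = Ideal.Quotient.mk q y}
        mul_mem' := fun {a b} ha hb => by
          change σ (Ψ (a * b)) = _
          rw [map_mul, map_mul, show σ (Ψ a) = _ from ha, show σ (Ψ b) = _ from hb, map_mul]
        add_mem' := fun {a b} ha hb => by
          change σ (Ψ (a + b)) = _
          rw [map_add, map_add, show σ (Ψ a) = _ from ha, show σ (Ψ b) = _ from hb, map_add]
        algebraMap_mem' := fun r => by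
          change σ (Ψ (algebraMap R ℬ' r)) = _
          rw [hΨ1', hσmk, hσ1]
          rfl }
    have hT : T = ⊤ := hgen T fun x => by
      change σ (Ψ (ρ x)) = _
      rw [hΨ2', hσmk, hσ2, hsA]
    intro y hy
    have h1 : y ∈ T := by rw [hT]; trivial
    have h2 : σ (Ψ y) = Ideal.Quotient.mk q y := h1
    rw [hy, map_zero] at h2
    exact Ideal.Quotient.eq_zero_iff_mem.mp h2.symm
  refine ⟨Ψ, ?_, ?_, hΨ1', ?_⟩
  · -- surjectivity
    let T : Subalgebra R AR :=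
      { carrier := {z | ∃ y, Ψ y = mk z}
        mul_mem' := fun {a b} ha hb => by
          obtain ⟨y, hy⟩ := ha
          obtain ⟨y', hy'⟩ := hb
          exact ⟨y * y', by rw [map_mul, hy, hy', map_mul]⟩
        add_mem' := fun {a b} ha hb => by
          obtain ⟨y, hy⟩ := ha
          obtain ⟨y', hy'⟩ := hb
          exact ⟨y + y', by rw [map_add, hy, hy', map_add]⟩
        algebraMap_mem' := fun r => ⟨algebraMap R ℬ' r, hΨ1' r⟩ }
    have hT : T = ⊤ := hgenA T fun a => by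
      obtain ⟨x, rfl⟩ := hp a
      exact ⟨ρ x, hΨ2' x⟩
    intro z
    obtain ⟨z, rfl⟩ := Ideal.Quotient.mk_surjective z
    have h1 : z ∈ T := by rw [hT]; trivial
    exact h1
  · rw [hΨ2', hpE, map_one, map_one]
  · intro y hy
    have hyq := hker y hy
    set s : Ideal ℬ' := (Ideal.span {E} * RingHom.ker p).map ρ with hs
    set t : Ideal ℬ' := Ideal.span {algebraMap R ℬ' u} with ht
    have h1 : ρ E * y ∈ s ⊔ t := by
      have h2 : Ideal.span {ρ E} * q ≤ s ⊔ t := by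
        rw [hq, Ideal.mul_sup, hs, Ideal.map_mul, Ideal.map_span, Set.image_singleton]
        exact sup_le_sup_left Ideal.mul_le_right _
      exact h2 (Ideal.mul_mem_mul (Ideal.mem_span_singleton_self _) hyq)
    have h3 : (ρ E * y) ^ e ∈ (s ⊔ t) ^ e := Ideal.pow_mem_pow h1 e
    have h4 : (s ⊔ t) ^ e ≤ t := by
      refine (sup_pow_le s t e).trans (sup_le ?_ le_rfl)
      rw [hs, ← Ideal.map_pow]
      refine (Ideal.map_mono hcut).trans ?_
      rw [Ideal.map_span, Set.image_singleton, hρX]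
    obtain ⟨z, hz⟩ := Ideal.mem_span_singleton.mp (h4 h3)
    exact ⟨z, by rw [hz, Algebra.smul_def]⟩

/-- the data of a highly ramified family -/
theorem exists_ram_data {A : Type} [CommRing A] [Algebra k A] {D : ℕ} (h : Fam k A D) :
    ∃ e : ℕ, 1 ≤ e ∧ ∃ D' : ℕ, D' ≤ D ∧ ∀ M : ℕ, 1 ≤ M →
      ∃ (ℬ : Type) (_ : CommRing ℬ) (_ : Algebra k⟦X⟧ ℬ) (_ : Module.Finite k⟦X⟧ ℬ)
        (_ : Module.Free k⟦X⟧ ℬ), Module.finrank k⟦X⟧ ℬ = D' ∧
        IsReduced (LL k ⊗[k⟦X⟧] ℬ) ∧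
        ∃ (Ψ : ℬ →+* (k⟦X⟧ ⊗[k] A) ⧸ Ideal.span {algebraMap k⟦X⟧ (k⟦X⟧ ⊗[k] A) (PowerSeries.X ^ M)})
          (E : ℬ), Function.Surjective Ψ ∧ Ψ E = 1 ∧
          (∀ r, Ψ (algebraMap k⟦X⟧ ℬ r) = Ideal.Quotient.mk _ (algebraMap k⟦X⟧ (k⟦X⟧ ⊗[k] A) r)) ∧
          ∀ y, Ψ y = 0 → ∃ z, (E * y) ^ e = (PowerSeries.X : k⟦X⟧) ^ M • z := by
  classical
  obtain ⟨ℬ, i1, i2, hfin, hfree, hred, hD, p, hp, hpC⟩ := h
  set Xb : ℬ := algebraMap k⟦X⟧ ℬ PowerSeries.X with hXb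
  have hpX : p Xb = 0 := by
    rw [hXb, hpC, PowerSeries.constantCoeff_X, map_zero]
  -- cutting the kernel
  have hart : IsArtinianRing (ℬ ⧸ Ideal.span {Xb}) := by
    set J : Ideal k⟦X⟧ := Ideal.span {PowerSeries.X} with hJ
    have hmap : Ideal.span {Xb} = J.map (algebraMap k⟦X⟧ ℬ) := by
      rw [hJ, Ideal.map_span, Set.image_singleton]
    rw [hmap]
    have hmax : J.IsMaximal := by
      rw [hJ, ← PowerSeries.maximalIdeal_eq_span_X]
      infer_instance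
    let _ : Field (k⟦X⟧ ⧸ J) := Ideal.Quotient.field J
    have hfin : Module.Finite (k⟦X⟧ ⧸ J) (ℬ ⧸ J.map (algebraMap k⟦X⟧ ℬ)) :=
      Module.Finite.of_restrictScalars_finite k⟦X⟧ (k⟦X⟧ ⧸ J) (ℬ ⧸ J.map (algebraMap k⟦X⟧ ℬ))
    exact IsArtinianRing.of_finite (k⟦X⟧ ⧸ J) (ℬ ⧸ J.map (algebraMap k⟦X⟧ ℬ))
  obtain ⟨e, ε, he, hε1, hε2⟩ := exists_cut ((RingHom.ker p).map (Ideal.Quotient.mk (Ideal.span {Xb})))
  obtain ⟨E, rfl⟩ := Ideal.Quotient.mk_surjective ε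
  have hpE : p E = 1 := by
    obtain ⟨y, hy, hyE⟩ := (Ideal.mem_map_iff_of_surjective _ Ideal.Quotient.mk_surjective).mp hε1
    have h1 : (Ideal.Quotient.mk (Ideal.span {Xb})) (y - (1 - E)) = 0 := by
      rw [map_sub, map_sub, map_one, hyE, sub_self]
    rw [Ideal.Quotient.eq_zero_iff_mem, Ideal.mem_span_singleton] at h1
    obtain ⟨z, hz⟩ := h1
    have h2 : p (y - (1 - E)) = 0 := by rw [hz, map_mul, hpX, zero_mul]
    rw [map_sub, map_sub, map_one, show p y = 0 from hy] at h2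
    have h3 : p E - 1 = 0 := by rw [← h2]; ring
    exact sub_eq_zero.mp h3
  have hcut : (Ideal.span {E} * RingHom.ker p) ^ e ≤ Ideal.span {Xb} := by
    have h1 : ((Ideal.span {E} * RingHom.ker p) ^ e).map (Ideal.Quotient.mk (Ideal.span {Xb})) = ⊥ := by
      rw [Ideal.map_pow, Ideal.map_mul, Ideal.map_span, Set.image_singleton]
      exact hε2
    rw [Ideal.map_eq_bot_iff_le_ker, Ideal.mk_ker] at h1
    exact h1
  refine ⟨e, he, Module.finrank k⟦X⟧ ℬ, hD, fun M hM => ?_⟩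
  let b := Module.finBasis k⟦X⟧ ℬ
  obtain ⟨ℬ', j1, j2, b', ρ, hρ, hred', hgen, hUP⟩ := exists_ram b hred M (by omega)
  have hfin' : Module.Finite k⟦X⟧ ℬ' := Module.Finite.of_basis b'
  have hfree' : Module.Free k⟦X⟧ ℬ' := Module.Free.of_basis b'
  have hρX : ρ Xb = algebraMap k⟦X⟧ ℬ' (PowerSeries.X ^ M) := by
    rw [hXb, hρ, PowerSeries.expand_X]
  obtain ⟨Ψ, h1, h2, h3, h4⟩ := core (AR := k⟦X⟧ ⊗[k] A) (PowerSeries.X ^ M : k⟦X⟧)
    (PowerSeries.expand M (by omega) : k⟦X⟧ →ₐ[k] k⟦X⟧).toRingHom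
    ((PowerSeries.C).comp PowerSeries.constantCoeff) (by
      intro c
      obtain ⟨r', hr'⟩ := powerSeries_split c
      refine ⟨PowerSeries.expand M (by omega) r', ?_⟩
      change PowerSeries.expand M _ c = PowerSeries.C (PowerSeries.constantCoeff c) + _
      conv_lhs => rw [hr']
      rw [map_add, map_mul, PowerSeries.expand_X, PowerSeries.expand_C]) p hp
    (Algebra.TensorProduct.includeRight : A →ₐ[k] k⟦X⟧ ⊗[k] A).toRingHom (by
      intro c
      rw [hpC]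
      change Algebra.TensorProduct.includeRight (algebraMap k A _) = _
      rw [AlgHom.commutes]
      rfl) (by
      intro Q _ f g hfg
      refine exists_tensorMap (k := k) f g fun c => ?_
      have h5 := hfg (PowerSeries.C c)
      rw [hpC, PowerSeries.constantCoeff_C] at h5
      rw [← h5]
      change _ = f (PowerSeries.C (PowerSeries.constantCoeff (PowerSeries.C c)))
      rw [PowerSeries.constantCoeff_C]
      rfl) (by
      intro T hT
      rw [eq_top_iff]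
      rintro x -
      induction x using TensorProduct.induction_on with
      | zero => exact T.zero_mem
      | add x y hx hy => exact T.add_mem hx hy
      | tmul r y =>
        have h1 : (r ⊗ₜ[k] y : k⟦X⟧ ⊗[k] A) = r • ((1 : k⟦X⟧) ⊗ₜ[k] y) := by
          rw [TensorProduct.smul_tmul', smul_eq_mul, mul_one]
        rw [h1]
        exact T.smul_mem (hT y) r) ρ hρ hgen hUP E Xb hpE e hcut hρX
  refine ⟨ℬ', j1, j2, hfin', hfree', ?_, hred', Ψ, ρ E, h1, h2, h3, h4⟩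
  rw [Module.finrank_eq_card_basis b', Fintype.card_fin]

end Pool.Agent.R566.DG
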