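import Pool.Agent.R566.CV.Tr
import Pool.Agent.H826R3.SM.Gen

/-!
# Ramified base change of families
-/

set_option autoImplicit false

namespace Pool.Agent.R566.DG

open scoped TensorProduct PowerSeries
open Pool.Agent.H826R3.SM Pool.Agent.R566.CV

/-- base change along a ring homomorphism -/
theorem exists_baseChange {S₀ S ℬ ι : Type} [CommRing S₀] [CommRing S] (φ : S₀ →+* S)
    [CommRing ℬ] [Algebra S₀ ℬ] [Fintype ι] [DecidableEq ι] (b : Module.Basis ι S₀ ℬ) :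
    ∃ (ℬ' : Type) (_ : CommRing ℬ') (_ : Algebra S ℬ') (b' : Module.Basis ι S ℬ')
      (ρ : ℬ →+* ℬ'), (∀ c, ρ (algebraMap S₀ ℬ c) = algebraMap S ℬ' (φ c)) ∧
      Algebra.discr S b' = φ (Algebra.discr S₀ b) ∧
      (∀ T : Subalgebra S ℬ', (∀ x, ρ x ∈ T) → T = ⊤) ∧
      ∀ (Z : Type) [CommRing Z] (f : S →+* Z) (g : ℬ →+* Z),
        (∀ c, f (φ c) = g (algebraMap S₀ ℬ c)) →
        ∃ h : ℬ' →+* Z, (∀ r, h (algebraMap S ℬ' r) = f r) ∧ ∀ x, h (ρ x) = g x := by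
  let _ : Algebra S₀ S := φ.toAlgebra
  refine ⟨S ⊗[S₀] ℬ, inferInstance, inferInstance, Algebra.TensorProduct.basis S b,
    (Algebra.TensorProduct.includeRight : ℬ →ₐ[S₀] S ⊗[S₀] ℬ).toRingHom, fun c => ?_,
    discr_baseChange b, fun T hT => ?_, ?_⟩
  · change (1 : S) ⊗ₜ[S₀] (algebraMap S₀ ℬ c) = (φ c) ⊗ₜ[S₀] (1 : ℬ)
    rw [Algebra.algebraMap_eq_smul_one, ← TensorProduct.smul_tmul, Algebra.smul_def, mul_one]
    rfl
  · rw [eq_top_iff]
    rintro x -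
    induction x using TensorProduct.induction_on with
    | zero => exact T.zero_mem
    | add x y hx hy => exact T.add_mem hx hy
    | tmul r y =>
      have h1 : (r ⊗ₜ[S₀] y : S ⊗[S₀] ℬ) = r • ((1 : S) ⊗ₜ[S₀] y) := by
        rw [TensorProduct.smul_tmul', smul_eq_mul, mul_one]
      rw [h1]
      exact T.smul_mem (hT y) r
  · intro Z _ f g hfg
    let _ : Algebra S₀ Z := (f.comp φ).toAlgebra
    let f' : S →ₐ[S₀] Z := { f with commutes' := fun c => rfl }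
    let g' : ℬ →ₐ[S₀] Z := { g with commutes' := fun c => (hfg c).symm }
    refine ⟨(Algebra.TensorProduct.productMap f' g').toRingHom, fun r => ?_, fun x => ?_⟩
    · change Algebra.TensorProduct.productMap f' g' (r ⊗ₜ 1) = f r
      rw [Algebra.TensorProduct.productMap_apply_tmul, map_one, mul_one]
      rfl
    · change Algebra.TensorProduct.productMap f' g' (1 ⊗ₜ x) = g x
      rw [Algebra.TensorProduct.productMap_apply_tmul, map_one, one_mul]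
      rfl

variable {k : Type} [Field k]

lemma discr_ne_zero {ℬ ι : Type} [CommRing ℬ] [Algebra k⟦X⟧ ℬ] [Fintype ι] [DecidableEq ι]
    (b : Module.Basis ι k⟦X⟧ ℬ) (h : IsReduced (LL k ⊗[k⟦X⟧] ℬ)) :
    Algebra.discr k⟦X⟧ b ≠ 0 := by
  intro h0
  have h1 := discr_of_reduced (Algebra.TensorProduct.basis (LL k) b) h
  rw [discr_baseChange b, h0, map_zero] at h1
  exact h1 rfl

lemma algebraMap_LL_injective : Function.Injective (algebraMap k⟦X⟧ (LL k)) := by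
  have h7 : (algebraMap k⟦X⟧ (LL k)) =
      (algebraMap (LaurentSeries k) (LL k)).comp (algebraMap k⟦X⟧ (LaurentSeries k)) :=
    IsScalarTower.algebraMap_eq _ _ _
  rw [h7]
  exact (algebraMap (LaurentSeries k) (LL k)).injective.comp
    (IsFractionRing.injective k⟦X⟧ (LaurentSeries k))

lemma reduced_of_discr_ne_zero {ℬ ι : Type} [CommRing ℬ] [Algebra k⟦X⟧ ℬ] [Fintype ι]
    [DecidableEq ι] (b : Module.Basis ι k⟦X⟧ ℬ) (h : Algebra.discr k⟦X⟧ b ≠ 0) :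
    IsReduced (LL k ⊗[k⟦X⟧] ℬ) := by
  refine reduced_of_discr (Algebra.TensorProduct.basis (LL k) b) ?_
  rw [discr_baseChange b]
  exact fun h0 => h ((map_eq_zero_iff _ algebraMap_LL_injective).mp h0)

lemma expand_injective (M : ℕ) (hM : M ≠ 0) :
    Function.Injective (PowerSeries.expand (R := k) M hM) := by
  intro x y hxy
  ext n
  rw [← PowerSeries.coeff_expand_mul M hM, hxy, PowerSeries.coeff_expand_mul]

/-- The ramified base change of a family. -/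
theorem exists_ram {ℬ ι : Type} [CommRing ℬ] [Algebra k⟦X⟧ ℬ] [Fintype ι] [DecidableEq ι]
    (b : Module.Basis ι k⟦X⟧ ℬ) (h : IsReduced (LL k ⊗[k⟦X⟧] ℬ)) (M : ℕ) (hM : M ≠ 0) :
    ∃ (ℬ' : Type) (_ : CommRing ℬ') (_ : Algebra k⟦X⟧ ℬ') (_ : Module.Basis ι k⟦X⟧ ℬ')
      (ρ : ℬ →+* ℬ'),
      (∀ c, ρ (algebraMap k⟦X⟧ ℬ c) = algebraMap k⟦X⟧ ℬ' (PowerSeries.expand M hM c)) ∧
      IsReduced (LL k ⊗[k⟦X⟧] ℬ') ∧
      (∀ T : Subalgebra k⟦X⟧ ℬ', (∀ x, ρ x ∈ T) → T = ⊤) ∧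
      ∀ (Z : Type) [CommRing Z] (f : k⟦X⟧ →+* Z) (g : ℬ →+* Z),
        (∀ c, f (PowerSeries.expand M hM c) = g (algebraMap k⟦X⟧ ℬ c)) →
        ∃ h : ℬ' →+* Z, (∀ r, h (algebraMap k⟦X⟧ ℬ' r) = f r) ∧ ∀ x, h (ρ x) = g x := by
  obtain ⟨ℬ', i1, i2, b', ρ, h1, h2, h3, h4⟩ :=
    exists_baseChange (PowerSeries.expand (R := k) M hM : k⟦X⟧ →+* k⟦X⟧) b
  refine ⟨ℬ', i1, i2, b', ρ, h1, ?_, h3, h4⟩
  refine reduced_of_discr_ne_zero b' ?_
  rw [h2]
  intro h0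
  refine discr_ne_zero b h ?_
  apply expand_injective M hM
  rw [map_zero]
  exact h0

end Pool.Agent.R566.DG
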