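import Pool.Agent.R566.DG.Iso
import Pool.Agent.R836.Emb

/-!
# Degrees, defects and growth rates of degenerations
-/

set_option autoImplicit false

namespace Pool.Agent.R566.DG

open scoped TensorProduct PowerSeries
open Pool.Agent.H826R3.SM Pool.Agent.R566.CV Pool.Agent.TH671.DU

variable {k : Type} [Field k]

/-- The scheme `Spec A₀` is a degeneration of `Spec A`. -/
def IsDeg (k : Type) [Field k] (A A₀ : Type) [CommRing A] [Algebra k A] [CommRing A₀]
    [Algebra k A₀] : Prop :=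
  ∃ (𝒜 : Type) (_ : CommRing 𝒜) (_ : Algebra k⟦X⟧ 𝒜), Module.Finite k⟦X⟧ 𝒜 ∧
    Module.Free k⟦X⟧ 𝒜 ∧
    Nonempty ((LaurentSeries k ⊗[k⟦X⟧] 𝒜) ≃ₐ[LaurentSeries k]
      (LaurentSeries k ⊗[k⟦X⟧] (k⟦X⟧ ⊗[k] A))) ∧
    ∃ π : 𝒜 →+* A₀, Function.Surjective π ∧
      (∀ c : k⟦X⟧, π (algebraMap k⟦X⟧ 𝒜 c) = algebraMap k A₀ (PowerSeries.constantCoeff c)) ∧
      ∀ x, π x = 0 → ∃ y, x = (PowerSeries.X : k⟦X⟧) • y

/-- the rank of a family is the dimension of the special fibre -/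
theorem special_rank {A₀ 𝒜 ι : Type} [CommRing A₀] [Algebra k A₀] [CommRing 𝒜] [Algebra k⟦X⟧ 𝒜]
    [Fintype ι] (b : Module.Basis ι k⟦X⟧ 𝒜) (π : 𝒜 →+* A₀) (hπ : Function.Surjective π)
    (hπC : ∀ c : k⟦X⟧, π (algebraMap k⟦X⟧ 𝒜 c) = algebraMap k A₀ (PowerSeries.constantCoeff c))
    (hker : ∀ x, π x = 0 → ∃ y, x = (PowerSeries.X : k⟦X⟧) • y) :
    Module.Finite k A₀ ∧ Module.finrank k A₀ = Fintype.card ι := by
  classical
  have hsmul : ∀ (r : k⟦X⟧) (x : 𝒜), π (r • x) = PowerSeries.constantCoeff r • π x := by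
    intro r x
    rw [Algebra.smul_def, map_mul, hπC, Algebra.smul_def]
  have hli : LinearIndependent k (fun i => π (b i)) := by
    rw [Fintype.linearIndependent_iff]
    intro c hc i
    have h1 : π (∑ i, PowerSeries.C (c i) • b i) = 0 := by
      rw [map_sum, ← hc]
      refine Finset.sum_congr rfl fun i _ => ?_
      rw [hsmul, PowerSeries.constantCoeff_C]
    obtain ⟨y, hy⟩ := hker _ h1
    have h2 := congrArg (fun z => b.repr z i) hy
    simp only [map_sum, map_smul, Finsupp.coe_finset_sum, Finset.sum_apply, Finsupp.coe_smul,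
      Pi.smul_apply, Module.Basis.repr_self, smul_eq_mul] at h2
    rw [Finset.sum_eq_single i] at h2
    · rw [Finsupp.single_eq_same, mul_one] at h2
      have h3 := congrArg PowerSeries.constantCoeff h2
      rw [PowerSeries.constantCoeff_C, map_mul, PowerSeries.constantCoeff_X, zero_mul] at h3
      exact h3
    · intro j _ hj
      rw [Finsupp.single_eq_of_ne hj.symm, mul_zero]
    · intro h
      exact absurd (Finset.mem_univ i) h
  have hsp : ⊤ ≤ Submodule.span k (Set.range fun i => π (b i)) := by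
    intro z _
    obtain ⟨x, rfl⟩ := hπ z
    rw [← b.sum_repr x, map_sum]
    refine Submodule.sum_mem _ fun i _ => ?_
    rw [hsmul]
    exact Submodule.smul_mem _ _ (Submodule.subset_span ⟨i, rfl⟩)
  let B := Module.Basis.mk hli hsp
  exact ⟨Module.Finite.of_basis B, Module.finrank_eq_card_basis B⟩

theorem IsDeg.dg {A A₀ : Type} [CommRing A] [Algebra k A] [Module.Finite k A] [CommRing A₀]
    [Algebra k A₀] (h : IsDeg k A A₀) : Dg k A A₀ := by
  obtain ⟨𝒜, i1, i2, h1, h2, ⟨Φ⟩, π, h3, h4, -⟩ := h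
  exact dg_of_iso Φ π h3 h4

theorem IsDeg.rank {A A₀ : Type} [CommRing A] [Algebra k A] [Module.Finite k A] [CommRing A₀]
    [Algebra k A₀] (h : IsDeg k A A₀) :
    Module.Finite k A₀ ∧ Module.finrank k A₀ = Module.finrank k A := by
  obtain ⟨𝒜, i1, i2, h1, h2, ⟨Φ⟩, π, h3, h4, h5⟩ := h
  obtain ⟨h6, h7⟩ := special_rank (Module.finBasis k⟦X⟧ 𝒜) π h3 h4 h5
  refine ⟨h6, ?_⟩
  rw [h7, Fintype.card_fin]
  have h8 := Φ.toLinearEquiv.finrank_eq
  rw [Module.finrank_baseChange, Module.finrank_baseChange, Module.finrank_baseChange] at h8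
  exact h8

variable [IsAlgClosed k]

theorem IsDeg.mdeg {A A₀ : Type} [CommRing A] [Algebra k A] [Module.Finite k A] [CommRing A₀]
    [Algebra k A₀] (h : IsDeg k A A₀) (n : ℕ) :
    mdeg k (Pow k A₀ n) ≤ mdeg k (Pow k A n) := by
  obtain ⟨D, hD⟩ := exists_fam (k := k) (Pow k A n)
  exact mdeg_le (Fam.dg (mdeg_spec hD) (h.dg.pow n))

theorem IsDeg.defect {A A₀ : Type} [CommRing A] [Algebra k A] [Module.Finite k A] [CommRing A₀]
    [Algebra k A₀] (h : IsDeg k A A₀) (n : ℕ) :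
    Pool.Agent.H826R3.SM.defect k (Pow k A₀ n) ≤ Pool.Agent.H826R3.SM.defect k (Pow k A n) := by
  obtain ⟨h1, h2⟩ := h.rank
  have h3 := h.mdeg n
  rw [← fadd k (Pow k A₀ n), ← fadd k (Pow k A n), finrank_Pow', finrank_Pow', h2] at h3
  omega

end Pool.Agent.R566.DG
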