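import Pool.Agent.R566.DG.Deg
import Pool.Agent.TH671.DU.Powers

/-!
# Degenerations of tensor products and powers
-/

set_option autoImplicit false

namespace Pool.Agent.R566.DG

open scoped TensorProduct PowerSeries
open Pool.Agent.H826R3.SM Pool.Agent.R566.CV Pool.Agent.TH671.DU

/-- abstract form -/
theorem theta_mul {R S S' C : Type} [CommRing R] [CommRing S] [Algebra R S] [CommRing S']
    [Algebra R S'] [CommRing C] [Algebra R C] (Θ : (S ⊗[R] S') →ₗ[R] C) (r : R)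
    (h : ∀ (x x' : S) (y y' : S'), Θ (x ⊗ₜ y) * Θ (x' ⊗ₜ y') = r • Θ ((x * x') ⊗ₜ (y * y'))) :
    ∀ z w, Θ z * Θ w = r • Θ (z * w) := by
  intro z w
  induction z using TensorProduct.induction_on with
  | zero => simp
  | add z z' hz hz' => rw [map_add, add_mul, hz, hz', add_mul, map_add, smul_add]
  | tmul x y =>
    induction w using TensorProduct.induction_on with
    | zero => simp
    | add w w' hw hw' => rw [map_add, mul_add, hw, hw', mul_add, map_add, smul_add]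
    | tmul x' y' => rw [h, Algebra.TensorProduct.tmul_mul_tmul]

variable {k : Type} [Field k] {A A₀ B B₀ : Type} [CommRing A] [Algebra k A] [CommRing A₀]
  [Algebra k A₀] [CommRing B] [Algebra k B] [CommRing B₀] [Algebra k B₀]

theorem Dg.tensor (h : Dg k A A₀) (h' : Dg k B B₀) : Dg k (A ⊗[k] B) (A₀ ⊗[k] B₀) := by
  obtain ⟨𝒜, i1, i2, c, m, θ, η, π, hfin, hfree, hθ, hθ1, hη, hπ, hπC⟩ := h
  obtain ⟨𝒜', i1', i2', c', m', θ', η', π', hfin', hfree', hθ', hθ1', hη', hπ', hπC'⟩ := h'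
  let ν := TensorProduct.AlgebraTensorModule.distribBaseChange k k⟦X⟧ A B
  have hν : ∀ (r : k⟦X⟧) (a : A) (b : B), ν (r ⊗ₜ (a ⊗ₜ b)) = (r ⊗ₜ a) ⊗ₜ (1 ⊗ₜ b) :=
    fun r a b => TensorProduct.AlgebraTensorModule.distribBaseChange_tmul ..
  have hνs : ∀ (r r' : k⟦X⟧) (a : A) (b : B),
      ν.symm ((r ⊗ₜ a) ⊗ₜ (r' ⊗ₜ b)) = (r * r') ⊗ₜ (a ⊗ₜ b) := by
    intro r r' a b
    rw [LinearEquiv.symm_apply_eq, hν]
    have h1 : ((r * r') ⊗ₜ[k] a : k⟦X⟧ ⊗[k] A) = r' • (r ⊗ₜ[k] a) := by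
      rw [TensorProduct.smul_tmul', smul_eq_mul, mul_comm]
    have h2 : (r' ⊗ₜ[k] b : k⟦X⟧ ⊗[k] B) = r' • (1 ⊗ₜ[k] b) := by
      rw [TensorProduct.smul_tmul', smul_eq_mul, mul_one]
    rw [h1, h2, TensorProduct.smul_tmul]
  have hνmul : ∀ (x x' : k⟦X⟧ ⊗[k] A) (y y' : k⟦X⟧ ⊗[k] B),
      ν.symm (x ⊗ₜ y) * ν.symm (x' ⊗ₜ y') = ν.symm ((x * x') ⊗ₜ (y * y')) := by
    intro x x' y y'
    induction x using TensorProduct.induction_on with
    | zero => simp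
    | add x z hx hz =>
      rw [TensorProduct.add_tmul, map_add, add_mul, hx, hz, add_mul, TensorProduct.add_tmul,
        map_add]
    | tmul r a =>
    induction x' using TensorProduct.induction_on with
    | zero => simp
    | add x z hx hz =>
      rw [TensorProduct.add_tmul, map_add, mul_add, hx, hz, mul_add, TensorProduct.add_tmul,
        map_add]
    | tmul r' a' =>
    induction y using TensorProduct.induction_on with
    | zero => simp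
    | add x z hx hz =>
      rw [TensorProduct.tmul_add, map_add, add_mul, hx, hz, add_mul, TensorProduct.tmul_add,
        map_add]
    | tmul s b =>
    induction y' using TensorProduct.induction_on with
    | zero => simp
    | add x z hx hz =>
      rw [TensorProduct.tmul_add, map_add, mul_add, hx, hz, mul_add, TensorProduct.tmul_add,
        map_add]
    | tmul s' b' =>
    rw [hνs, hνs, Algebra.TensorProduct.tmul_mul_tmul, Algebra.TensorProduct.tmul_mul_tmul,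
      Algebra.TensorProduct.tmul_mul_tmul, Algebra.TensorProduct.tmul_mul_tmul, hνs]
    congr 1
    ring
  let Θ : (𝒜 ⊗[k⟦X⟧] 𝒜') →ₗ[k⟦X⟧] (k⟦X⟧ ⊗[k] (A ⊗[k] B)) :=
    ν.symm.toLinearMap ∘ₗ TensorProduct.map θ θ'
  let H : (k⟦X⟧ ⊗[k] (A ⊗[k] B)) →ₗ[k⟦X⟧] (𝒜 ⊗[k⟦X⟧] 𝒜') :=
    TensorProduct.map η η' ∘ₗ ν.toLinearMap
  have hΘ : ∀ x y, Θ (x ⊗ₜ y) = ν.symm (θ x ⊗ₜ θ' y) := fun x y => rfl
  obtain ⟨Q₀, hQ1, hQ2⟩ := exists_tensorMap (k := k⟦X⟧) (R := 𝒜) (A := 𝒜')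
    ((Algebra.TensorProduct.includeLeft : A₀ →ₐ[k] A₀ ⊗[k] B₀).toRingHom.comp π)
    ((Algebra.TensorProduct.includeRight : B₀ →ₐ[k] A₀ ⊗[k] B₀).toRingHom.comp π') (by
      intro r
      change (Algebra.TensorProduct.includeLeft : A₀ →ₐ[k] A₀ ⊗[k] B₀)
          (π (algebraMap k⟦X⟧ 𝒜 r)) =
        (Algebra.TensorProduct.includeRight : B₀ →ₐ[k] A₀ ⊗[k] B₀) (π' (algebraMap k⟦X⟧ 𝒜' r))
      rw [hπC, hπC', AlgHom.commutes, AlgHom.commutes])
  refine ⟨𝒜 ⊗[k⟦X⟧] 𝒜', inferInstance, inferInstance, c + c', m + m', Θ, H, Q₀, inferInstance,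
    inferInstance, ?_, ?_, ?_, ?_, ?_⟩
  · refine theta_mul Θ _ fun x x' y y' => ?_
    rw [hΘ, hΘ, hΘ, hνmul, hθ, hθ', TensorProduct.smul_tmul_smul, map_smul, pow_add]
  · have h1 : (1 : 𝒜 ⊗[k⟦X⟧] 𝒜') = 1 ⊗ₜ 1 := rfl
    rw [h1, hΘ, hθ1, hθ1', TensorProduct.smul_tmul_smul, map_smul, pow_add]
    congr 1
    have h2 : ((1 : k⟦X⟧ ⊗[k] A) ⊗ₜ[k⟦X⟧] (1 : k⟦X⟧ ⊗[k] B)) =
      (((1 : k⟦X⟧) ⊗ₜ[k] (1 : A)) ⊗ₜ[k⟦X⟧] ((1 : k⟦X⟧) ⊗ₜ[k] (1 : B))) := rfl
    rw [h2, hνs, mul_one]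
    rfl
  · intro z
    change TensorProduct.map η η' (ν (ν.symm (TensorProduct.map θ θ' z))) = _
    rw [LinearEquiv.apply_symm_apply]
    induction z using TensorProduct.induction_on with
    | zero => simp
    | add x y hx hy => rw [map_add, map_add, hx, hy, smul_add]
    | tmul x y =>
      rw [TensorProduct.map_tmul, TensorProduct.map_tmul, hη, hη', TensorProduct.smul_tmul_smul,
        pow_add]
  · intro z
    induction z using TensorProduct.induction_on with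
    | zero => exact ⟨0, map_zero _⟩
    | add x y hx hy =>
      obtain ⟨x', hx'⟩ := hx
      obtain ⟨y', hy'⟩ := hy
      exact ⟨x' + y', by rw [map_add, hx', hy']⟩
    | tmul a b =>
      obtain ⟨x, rfl⟩ := hπ a
      obtain ⟨y, rfl⟩ := hπ' b
      refine ⟨algebraMap 𝒜 (𝒜 ⊗[k⟦X⟧] 𝒜') x * Algebra.TensorProduct.includeRight y, ?_⟩
      rw [map_mul, hQ1, hQ2]
      change (π x ⊗ₜ[k] (1 : B₀)) * ((1 : A₀) ⊗ₜ[k] π' y) = _
      rw [Algebra.TensorProduct.tmul_mul_tmul, mul_one, one_mul]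
  · intro r
    have h1 : algebraMap k⟦X⟧ (𝒜 ⊗[k⟦X⟧] 𝒜') r =
        algebraMap 𝒜 (𝒜 ⊗[k⟦X⟧] 𝒜') (algebraMap k⟦X⟧ 𝒜 r) := rfl
    rw [h1, hQ1]
    change (Algebra.TensorProduct.includeLeft : A₀ →ₐ[k] A₀ ⊗[k] B₀)
      (π (algebraMap k⟦X⟧ 𝒜 r)) = _
    rw [hπC, AlgHom.commutes]

theorem Dg.congr (h : Dg k A A₀) (e : B ≃ₐ[k] A) (e₀ : A₀ ≃ₐ[k] B₀) : Dg k B B₀ := by
  obtain ⟨𝒜, i1, i2, c, m, θ, η, π, hfin, hfree, hθ, hθ1, hη, hπ, hπC⟩ := h
  let E : (k⟦X⟧ ⊗[k] A) ≃ₐ[k⟦X⟧] (k⟦X⟧ ⊗[k] B) :=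
    Algebra.TensorProduct.congr AlgEquiv.refl e.symm
  refine ⟨𝒜, i1, i2, c, m, E.toLinearMap ∘ₗ θ, η ∘ₗ E.symm.toLinearMap,
    (e₀ : A₀ →+* B₀).comp π, hfin, hfree, ?_, ?_, ?_, ?_, ?_⟩
  · intro x y
    change E (θ x) * E (θ y) = _ • E (θ (x * y))
    rw [← map_mul, hθ, map_smul]
  · change E (θ 1) = _
    rw [hθ1, map_smul, map_one]
  · intro x
    change η (E.symm (E (θ x))) = _
    rw [E.symm_apply_apply, hη]
  · exact e₀.surjective.comp hπ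
  · intro r
    change e₀ (π _) = _
    rw [hπC, e₀.commutes]

theorem Dg.self : Dg k k k := by
  let E : (k⟦X⟧ ⊗[k] k) ≃ₐ[k⟦X⟧] k⟦X⟧ := Algebra.TensorProduct.rid k k⟦X⟧ k⟦X⟧
  refine ⟨k⟦X⟧, inferInstance, inferInstance, 0, 0, E.symm.toLinearMap, E.toLinearMap,
    PowerSeries.constantCoeff, inferInstance, inferInstance, ?_, ?_, ?_, ?_, ?_⟩
  · intro x y
    change E.symm x * E.symm y = _ • E.symm (x * y)
    rw [← map_mul, pow_zero, one_smul]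
  · change E.symm 1 = _
    rw [map_one, pow_zero, one_smul]
  · intro x
    change E (E.symm x) = _
    rw [E.apply_symm_apply, pow_zero, one_smul]
  · intro x
    exact ⟨PowerSeries.C x, PowerSeries.constantCoeff_C x⟩
  · intro r
    rfl

theorem Dg.pow (h : Dg k A A₀) (n : ℕ) : Dg k (Pow k A n) (Pow k A₀ n) := by
  induction n with
  | zero => exact Dg.self.congr (powZero k A) (powZero k A₀).symm
  | succ n ih => exact (h.tensor ih).congr (powSucc k A n) (powSucc k A₀ n).symm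

end Pool.Agent.R566.DG
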